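import Pool.Statements.S00362
import Pool.Agent.H27Delt.Branch

set_option autoImplicit false
open Pool Pool.MP_aaa69e_ag

namespace Pool.Agent.S00362

/-- The negation of the preceding statement: For every irreducible f in ℂ[x,y], the number of singular points of the curve f=0 where the curve has one local branch is at most the first Betti number (rank of abelianized fundamental group) of the curve plus one. -/
theorem result :
    ¬ (∀ f : MvPolynomial (Fin 2) ℂ, Irreducible f →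
    ∀ x₀ : ↥{z : Fin 2 → ℂ | MvPolynomial.eval z f = 0},
    Set.ncard {p : Fin 2 → ℂ | MvPolynomial.eval p f = 0 ∧
        (∀ i : Fin 2, MvPolynomial.eval p (MvPolynomial.pderiv i f) = 0) ∧
        ∃ ε : ℝ, 0 < ε ∧ ∀ δ : ℝ, 0 < δ → δ < ε →
          IsPreconnected {q : Fin 2 → ℂ | MvPolynomial.eval q f = 0 ∧ q ≠ p ∧
            ‖q 0 - p 0‖ ^ 2 + ‖q 1 - p 1‖ ^ 2 < δ ^ 2}}
      ≤ Module.finrank ℤ
          (Additive (Abelianization
            (FundamentalGroup ↥{z : Fin 2 → ℂ | MvPolynomial.eval z f = 0} x₀))) + 1) := by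
  intro H
  have h1 := H Pool.Agent.H27Delt.F Pool.Agent.H27Delt.irreducible_F Pool.Agent.H27Delt.base
  have h2 := Pool.Agent.H27Delt.finrank_le
  set S : Set (Fin 2 → ℂ) := {p : Fin 2 → ℂ | MvPolynomial.eval p Pool.Agent.H27Delt.F = 0 ∧
        (∀ i : Fin 2, MvPolynomial.eval p (MvPolynomial.pderiv i Pool.Agent.H27Delt.F) = 0) ∧
        ∃ ε : ℝ, 0 < ε ∧ ∀ δ : ℝ, 0 < δ → δ < ε →
          IsPreconnected {q : Fin 2 → ℂ | MvPolynomial.eval q Pool.Agent.H27Delt.F = 0 ∧ q ≠ p ∧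
            ‖q 0 - p 0‖ ^ 2 + ‖q 1 - p 1‖ ^ 2 < δ ^ 2}} with hS
  have h3 : Set.ncard S ≤ 2 := le_trans h1 (Nat.succ_le_succ h2)
  -- the set is finite
  have hfin : S.Finite := by
    have hroots : {x : ℂ | x ^ 3 = 27}.Finite := by
      have hp : (Polynomial.X ^ 3 - Polynomial.C 27 : Polynomial ℂ) ≠ 0 :=
        Polynomial.X_pow_sub_C_ne_zero (by norm_num) _
      refine (Polynomial.finite_setOf_isRoot hp).subset ?_
      intro x hx
      have hx' : x ^ 3 = 27 := hx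
      simp [Polynomial.IsRoot, hx']
    refine (hroots.image (fun x : ℂ => (![x, 9 / x] : Fin 2 → ℂ))).subset ?_
    rintro p ⟨hp0, hp1, -⟩
    have hx := hp1 0
    have hy := hp1 1
    rw [Pool.Agent.H27Delt.eval_pderiv0] at hx
    rw [Pool.Agent.H27Delt.eval_pderiv1] at hy
    rw [Pool.Agent.H27Delt.eval_F] at hp0
    generalize hX : p 0 = x at *
    generalize hY : p 1 = y at *
    have hu : (x * y - 9) ^ 2 = 0 := by
      linear_combination (-3) * hp0 + x * hx + y * hy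
    have hu' : x * y = 9 := by
      have := pow_eq_zero_iff (two_ne_zero) |>.1 hu
      linear_combination this
    have hx3 : x ^ 3 = 27 := by
      linear_combination (-1 / 12) * x * hx + (1 / 6) * (x * y + 18) * hu'
    have hx0 : x ≠ 0 := by
      rintro rfl
      norm_num at hx3
    refine ⟨x, hx3, ?_⟩
    funext i
    fin_cases i
    · exact hX.symm
    · show 9 / x = p 1
      rw [hY]
      field_simp
      linear_combination -hu'
  -- the three cusps
  have hmem : ∀ η : ℂ, η ^ 3 = 1 → (![3 * η, 3 * η ^ 2] : Fin 2 → ℂ) ∈ S := by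
    intro η hη
    refine ⟨?_, ?_, 1 / 1600, by norm_num, ?_⟩
    · rw [Pool.Agent.H27Delt.eval_F]
      show (3 * η) ^ 2 * (3 * η ^ 2) ^ 2 - 4 * (3 * η) ^ 3 - 4 * (3 * η ^ 2) ^ 3 +
        18 * (3 * η) * (3 * η ^ 2) - 27 = 0
      linear_combination (-27 * η ^ 3 + 27) * hη
    · intro i
      fin_cases i
      · show MvPolynomial.eval _ (MvPolynomial.pderiv 0 _) = 0
        rw [Pool.Agent.H27Delt.eval_pderiv0]
        show 2 * ((3 * η) * (3 * η ^ 2) ^ 2 - 6 * (3 * η) ^ 2 + 9 * (3 * η ^ 2)) = 0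
        linear_combination (54 * η ^ 2) * hη
      · show MvPolynomial.eval _ (MvPolynomial.pderiv 1 _) = 0
        rw [Pool.Agent.H27Delt.eval_pderiv1]
        show 2 * ((3 * η) ^ 2 * (3 * η ^ 2) - 6 * (3 * η ^ 2) ^ 2 + 9 * (3 * η)) = 0
        linear_combination (-54 * η) * hη
    · intro δ hδ hδ'
      exact Pool.Agent.H27Delt.cusp hη hδ hδ'
  have hprim := Complex.isPrimitiveRoot_exp 3 (by norm_num)
  set ζ : ℂ := Complex.exp (2 * Real.pi * Complex.I / (3 : ℕ)) with hζ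
  have hζ3 : ζ ^ 3 = 1 := hprim.pow_eq_one
  have hζ1 : ζ ≠ 1 := hprim.ne_one (by norm_num)
  have hζ0 : ζ ≠ 0 := hprim.ne_zero (by norm_num)
  have hne : ∀ a b : ℂ, a ≠ b →
      (![3 * a, 3 * a ^ 2] : Fin 2 → ℂ) ≠ ![3 * b, 3 * b ^ 2] := by
    intro a b hab h
    apply hab
    have h0 := congrFun h 0
    have h0' : 3 * a = 3 * b := h0
    linear_combination (1 / 3) * h0'
  have hζ2 : ζ ^ 2 ≠ 1 := by
    intro h
    apply hζ1
    linear_combination hζ3 - ζ * h
  have hζ12 : ζ ≠ ζ ^ 2 := by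
    intro h
    apply hζ1
    have : ζ * (ζ - 1) = 0 := by linear_combination -h
    rcases mul_eq_zero.1 this with h' | h'
    · exact absurd h' hζ0
    · linear_combination h'
  have hsub : ({![3 * 1, 3 * 1 ^ 2], ![3 * ζ, 3 * ζ ^ 2], ![3 * ζ ^ 2, 3 * (ζ ^ 2) ^ 2]} :
      Set (Fin 2 → ℂ)) ⊆ S := by
    intro p hp
    rcases hp with rfl | rfl | rfl
    · exact hmem 1 (by norm_num)
    · exact hmem ζ hζ3
    · exact hmem (ζ ^ 2) (by linear_combination (ζ ^ 3 + 1) * hζ3)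
  have hcard : Set.ncard ({![3 * 1, 3 * 1 ^ 2], ![3 * ζ, 3 * ζ ^ 2],
      ![3 * ζ ^ 2, 3 * (ζ ^ 2) ^ 2]} : Set (Fin 2 → ℂ)) = 3 := by
    rw [Set.ncard_eq_three]
    exact ⟨_, _, _, hne _ _ hζ1.symm, hne _ _ hζ2.symm, hne _ _ hζ12, rfl⟩
  have h4 := Set.ncard_le_ncard hsub hfin
  omega

end Pool.Agent.S00362
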