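import Pool.Statements.S00527
import Pool.Agent.H61L.Lim

set_option autoImplicit false
open Pool Pool.MP_eae75b_ag

namespace Pool.Agent.S00527

/-- For k infinite, R=k[[x_0..x_d]], I m-primary: for general linear forms l_j, the sum over i<d of s(d+1,d+1-i)·e(I R/(l_1..l_i)) is at most (d+1)!·length(R/I), s unsigned Stirling of first kind. -/
theorem result :
  ∀ (k : Type) [Field k] [Infinite k] (d : ℕ) (I : Ideal (MvPowerSeries (Fin (d+1)) k)),
    I.radical = Ideal.span (Set.range (MvPowerSeries.X : Fin (d+1) → MvPowerSeries (Fin (d+1)) k)) →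
    ∃ P : MvPolynomial (Fin d × Fin (d+1)) k, P ≠ 0 ∧
      ∀ c : Fin d → Fin (d+1) → k, MvPolynomial.eval (fun p => c p.1 p.2) P ≠ 0 →
        ∀ e : Fin d → ℝ,
          (∀ i : Fin d, Filter.Tendsto
            (fun n : ℕ => ((Nat.factorial (d+1-i.val) : ℝ) *
              ((Module.length (MvPowerSeries (Fin (d+1)) k)
                (MvPowerSeries (Fin (d+1)) k ⧸
                  (I ^ n ⊔ Ideal.span {f : MvPowerSeries (Fin (d+1)) k |
                    ∃ j : Fin d, j.val < i.val ∧
                      f = ∑ t : Fin (d+1), c j t • (MvPowerSeries.X t : MvPowerSeries (Fin (d+1)) k)}))).toNat : ℝ))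
              / (n : ℝ) ^ (d+1-i.val))
            Filter.atTop (nhds (e i))) →
          ∑ i : Fin d, ((ascPochhammer ℕ (d+1)).coeff (d+1-i.val) : ℝ) * e i
            ≤ (Nat.factorial (d+1) : ℝ) *
              ((Module.length (MvPowerSeries (Fin (d+1)) k)
                (MvPowerSeries (Fin (d+1)) k ⧸ I)).toNat : ℝ) := by
  intro k _ _ d I hrad
  obtain ⟨N, hN, hI⟩ : ∃ N, 2 ≤ N ∧ H61L.mm (d + 1) k ^ N ≤ I := by
    have hfg : I.radical.FG := by
      rw [hrad]
      exact Submodule.fg_span (Set.finite_range _)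
    obtain ⟨N, hN⟩ := Ideal.exists_radical_pow_le_of_fg I hfg
    rw [hrad] at hN
    exact ⟨N + 2, by omega, (Ideal.pow_le_pow_right (by omega)).trans hN⟩
  obtain ⟨P, g₀, c₀, hg₀, H⟩ := H61L.main_ineq hN hI
  obtain ⟨P', hP'⟩ := H61L.exists_restrict (g₀ 0) P
  refine ⟨P', ?_, ?_⟩
  · rintro rfl
    have h1 := hP' (fun m => g₀ (Fin.rev m.castSucc))
    rw [H61L.ext_self, map_zero] at h1
    exact hg₀ h1.symm
  · intro c hc e he
    rw [hP'] at hc
    obtain ⟨g, hgdef⟩ : ∃ g, g = H61L.ext (g₀ 0) c := ⟨_, rfl⟩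
    rw [← hgdef] at hc
    -- the ideals
    let J : ℕ → ℕ → Ideal (MvPowerSeries (Fin (d + 1)) k) := fun s κ =>
      I ^ s ⊔ Ideal.span {f : MvPowerSeries (Fin (d+1)) k |
        ∃ j : Fin d, j.val < d + 1 - κ ∧
          f = ∑ t : Fin (d+1), c j t • (MvPowerSeries.X t : MvPowerSeries (Fin (d+1)) k)}
    have hJlin : ∀ s κ, 1 ≤ κ → ∀ j : Fin (d + 1), κ ≤ j.val → H61L.lf g j ∈ J s κ := by
      intro s κ hκ j hj
      refine Ideal.mem_sup_right (Ideal.subset_span ?_)
      refine ⟨⟨d - j.val, by omega⟩, ?_, ?_⟩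
      · show d - j.val < d + 1 - κ
        omega
      · have h1 : g j = c ⟨d - j.val, by omega⟩ := by
          rw [hgdef, ← H61L.ext_castSucc (g₀ 0) c ⟨d - j.val, by omega⟩]
          congr 1
          ext
          simp only [Fin.val_rev, Fin.val_castSucc]
          omega
        show ∑ t, g j t • (MvPowerSeries.X t : MvPowerSeries (Fin (d + 1)) k) = _
        rw [h1]
    -- the inequality for every power
    have key : ∀ s : ℕ, 1 ≤ s →
        ∑ i : Fin d, H61L.cf ((s + c₀ : ℕ) : ℝ) (d + 1) (d + 1 - i.val) *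
          ((Module.length (MvPowerSeries (Fin (d + 1)) k)
            (MvPowerSeries (Fin (d + 1)) k ⧸ J s (d + 1 - i.val))).toNat : ℝ) ≤
        (Nat.factorial (d+1) : ℝ) * ((Module.length (MvPowerSeries (Fin (d+1)) k)
          (MvPowerSeries (Fin (d+1)) k ⧸ I)).toNat : ℝ) := by
      intro s hs
      let J' : ℕ → Ideal (MvPowerSeries (Fin (d + 1)) k) := fun κ => if κ = 0 then ⊤ else J s κ
      have h1 := H g hc s hs J' ?_ ?_
      · refine le_trans ?_ h1
        have h2 : ∑ i : Fin d, H61L.cf ((s + c₀ : ℕ) : ℝ) (d + 1) (d + 1 - i.val) *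
            ((Module.length (MvPowerSeries (Fin (d + 1)) k)
              (MvPowerSeries (Fin (d + 1)) k ⧸ J s (d + 1 - i.val))).toNat : ℝ) =
            ∑ κ ∈ Finset.univ.image (fun i : Fin d => d + 1 - i.val),
              H61L.cf ((s + c₀ : ℕ) : ℝ) (d + 1) κ *
              ((Module.length (MvPowerSeries (Fin (d + 1)) k)
                (MvPowerSeries (Fin (d + 1)) k ⧸ J' κ)).toNat : ℝ) := by
          rw [Finset.sum_image]
          · refine Finset.sum_congr rfl fun i _ => ?_
            have h3 : J' (d + 1 - i.val) = J s (d + 1 - i.val) := if_neg (by omega)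
            rw [h3]
          · intro i _ j _ hij
            ext
            simp only at hij
            omega
        rw [h2]
        refine Finset.sum_le_sum_of_subset_of_nonneg ?_ fun κ _ _ => ?_
        · intro κ hκ
          obtain ⟨i, -, rfl⟩ := Finset.mem_image.1 hκ
          rw [Finset.mem_range]
          omega
        · refine mul_nonneg (H61L.cf_nonneg ?_ _ _) (Nat.cast_nonneg _)
          exact_mod_cast (by omega : 1 ≤ s + c₀)
      · intro κ
        simp only [J']
        split_ifs
        · exact le_top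
        · exact le_sup_left
      · intro κ j hj
        simp only [J']
        split_ifs with h
        · trivial
        · exact hJlin s κ (by omega) j hj
    -- the limit
    have hlim : Filter.Tendsto (fun s : ℕ =>
        ∑ i : Fin d, H61L.cf ((s + c₀ : ℕ) : ℝ) (d + 1) (d + 1 - i.val) *
          ((Module.length (MvPowerSeries (Fin (d + 1)) k)
            (MvPowerSeries (Fin (d + 1)) k ⧸ J s (d + 1 - i.val))).toNat : ℝ)) Filter.atTop
        (nhds (∑ i : Fin d, ((ascPochhammer ℕ (d+1)).coeff (d+1-i.val) : ℝ) * e i)) := by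
      refine tendsto_finsetSum _ fun i _ => ?_
      refine H61L.tendsto_term c₀ (d + 1) (d + 1 - i.val) (fun s =>
        ((Module.length (MvPowerSeries (Fin (d + 1)) k)
            (MvPowerSeries (Fin (d + 1)) k ⧸ J s (d + 1 - i.val))).toNat : ℝ)) (e i) ?_
      have h2 : d + 1 - (d + 1 - i.val) = i.val := by omega
      have h3 : ∀ s, J s (d + 1 - i.val) = I ^ s ⊔ Ideal.span {f : MvPowerSeries (Fin (d+1)) k |
          ∃ j : Fin d, j.val < i.val ∧
            f = ∑ t : Fin (d+1), c j t • (MvPowerSeries.X t : MvPowerSeries (Fin (d+1)) k)} := by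
        intro s
        simp only [J, h2]
      refine (he i).congr fun s => ?_
      rw [h3 s]
    refine le_of_tendsto hlim ?_
    filter_upwards [Filter.eventually_ge_atTop 1] with s hs
    exact key s hs

end Pool.Agent.S00527
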