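import Pool.Statements.S04252
import Mathlib

set_option autoImplicit false
open Filter Topology
open Pool Pool.MP_309e42_an

namespace Pool.Agent.S04252

/-- the Taylor coefficients of `sin (sqrt z) / sqrt z` -/
noncomputable def c (n : ℕ) : ℂ := (-1) ^ n / ((2 * n + 1).factorial : ℂ)

/-- the entire function `sin (sqrt z) / sqrt z`, of order `1/2` -/
noncomputable def g : ℂ → ℂ := FormalMultilinearSeries.ofScalarsSum (E := ℂ) c

lemma c_ne (n : ℕ) : c n ≠ 0 := by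
  unfold c
  have h : ((2 * n + 1).factorial : ℂ) ≠ 0 := by exact_mod_cast Nat.factorial_ne_zero _
  exact div_ne_zero (pow_ne_zero _ (by norm_num)) h

lemma norm_c (n : ℕ) : ‖c n‖ = 1 / ((2 * n + 1).factorial : ℝ) := by
  unfold c
  rw [norm_div, norm_pow, norm_neg, norm_one, one_pow, Complex.norm_natCast]

lemma radius : (FormalMultilinearSeries.ofScalars ℂ c).radius = ⊤ := by
  refine FormalMultilinearSeries.ofScalars_radius_eq_top_of_tendsto ℂ c
    (Eventually.of_forall c_ne) ?_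
  have h : ∀ n : ℕ, ‖c n.succ‖ / ‖c n‖ ≤ 1 / ((n : ℝ) + 1) := by
    intro n
    rw [norm_c, norm_c]
    have e : (2 * n.succ + 1).factorial = (2 * n + 3) * ((2 * n + 2) * (2 * n + 1).factorial) := by
      have : 2 * n.succ + 1 = (2 * n + 1) + 1 + 1 := by omega
      rw [this, Nat.factorial_succ, Nat.factorial_succ]
    rw [e]
    have hf : (0 : ℝ) < ((2 * n + 1).factorial : ℝ) := by exact_mod_cast Nat.factorial_pos _
    push_cast
    rw [div_div_div_eq, one_mul, mul_one, div_le_div_iff₀ (by positivity) (by positivity)]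
    nlinarith [mul_pos hf (by positivity : (0 : ℝ) < (n : ℝ) + 1), hf,
      mul_nonneg hf.le (by positivity : (0 : ℝ) ≤ (n : ℝ) * (n : ℝ)),
      mul_nonneg hf.le (by positivity : (0 : ℝ) ≤ (n : ℝ))]
  refine squeeze_zero (fun n => by positivity) h ?_
  exact tendsto_one_div_add_atTop_nhds_zero_nat

lemma hg : HasFPowerSeriesOnBall g (FormalMultilinearSeries.ofScalars ℂ c) 0 ⊤ := by
  have h := (FormalMultilinearSeries.ofScalars ℂ c).hasFPowerSeriesOnBall (by rw [radius]; exact ENNReal.zero_lt_top)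
  rw [radius] at h
  exact h

lemma g_diff : Differentiable ℂ g := by
  intro z
  have h := hg.analyticAt_of_mem (y := z) (by simp)
  exact h.differentiableAt

lemma g_hasSum (z : ℂ) : HasSum (fun n => c n * z ^ n) (g z) := by
  have h := hg.hasSum (y := z) (by simp)
  rw [zero_add] at h
  have e : (fun n : ℕ => (FormalMultilinearSeries.ofScalars ℂ c n) fun _ => z) =
      fun n => c n * z ^ n := by
    ext n
    rw [FormalMultilinearSeries.ofScalars_apply_eq, smul_eq_mul]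
  rw [e] at h
  exact h

lemma g_iter (n : ℕ) : iteratedDeriv n g 0 ≠ 0 := by
  have h1 := (hg.analyticAt_of_mem (y := 0) (by simp)).hasFPowerSeriesAt
  have h2 := h1.eq_formalMultilinearSeries hg.hasFPowerSeriesAt
  have h3 := congrArg (fun p => FormalMultilinearSeries.coeff p n) h2
  simp only [FormalMultilinearSeries.coeff_ofScalars] at h3
  intro h
  rw [h, zero_div] at h3
  exact c_ne n h3.symm

lemma g_zero : g 0 = 1 := by
  have h := g_hasSum 0
  have h2 : HasSum (fun n => c n * (0 : ℂ) ^ n) (c 0 * 0 ^ 0) := by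
    refine hasSum_single 0 ?_
    intro n hn
    rw [zero_pow hn, mul_zero]
  rw [h.unique h2]
  simp [c]

lemma g_sq (x : ℂ) : g (x ^ 2) * x = Complex.sin x := by
  have h := (g_hasSum (x ^ 2)).mul_right x
  have h2 := Complex.hasSum_sin x
  refine h.unique ?_
  convert! h2 using 1
  ext n
  unfold c
  rw [← pow_mul, pow_succ]
  ring

lemma g_bound (z : ℂ) : ‖g z‖ ≤ Real.exp (Real.sqrt ‖z‖) := by
  have h := g_hasSum z
  have h2 := Real.hasSum_cosh (Real.sqrt ‖z‖)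
  have h3 : ‖g z‖ ≤ Real.cosh (Real.sqrt ‖z‖) := by
    rw [← h.tsum_eq, ← h2.tsum_eq]
    refine tsum_of_norm_bounded h2.summable.hasSum ?_
    intro n
    rw [norm_mul, norm_c, norm_pow, pow_mul, Real.sq_sqrt (norm_nonneg _), one_div,
      inv_mul_eq_div]
    have hf : ((2 * n).factorial : ℝ) ≤ ((2 * n + 1).factorial : ℝ) := by
      exact_mod_cast Nat.factorial_le (Nat.le_succ (2 * n))
    have hf0 : (0 : ℝ) < ((2 * n).factorial : ℝ) := by exact_mod_cast Nat.factorial_pos _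
    exact div_le_div_of_nonneg_left (by positivity) hf0 hf
  refine h3.trans ?_
  rw [Real.cosh_eq]
  have : Real.exp (-Real.sqrt ‖z‖) ≤ Real.exp (Real.sqrt ‖z‖) :=
    Real.exp_le_exp.2 (by linarith [Real.sqrt_nonneg ‖z‖])
  linarith

lemma card_eq (t : ℝ) (ht : 0 ≤ t) :
    Nat.card {n : ℕ // iteratedDeriv n g 0 ≠ 0 ∧ (n : ℝ) ≤ t} = ⌊t⌋₊ + 1 := by
  have e : {n : ℕ | iteratedDeriv n g 0 ≠ 0 ∧ (n : ℝ) ≤ t} = (Finset.range (⌊t⌋₊ + 1) : Set ℕ) := by
    ext n
    simp only [Set.mem_ofPred_eq, Finset.coe_range, Set.mem_Iio, Nat.lt_succ_iff]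
    rw [Nat.le_floor_iff ht]
    exact ⟨fun h => h.2, fun h => ⟨g_iter n, h⟩⟩
  have h := Nat.card_coe_set_eq {n : ℕ | iteratedDeriv n g 0 ≠ 0 ∧ (n : ℝ) ≤ t}
  have h2 : Nat.card {n : ℕ // iteratedDeriv n g 0 ≠ 0 ∧ (n : ℝ) ≤ t} =
    {n : ℕ | iteratedDeriv n g 0 ≠ 0 ∧ (n : ℝ) ≤ t}.ncard := h
  rw [h2, e, Set.ncard_coe_finset, Finset.card_range]

lemma dens (ξ : ℝ) (h0 : 0 < ξ) (h1 : ξ < 1) :
    Filter.limsup (fun t : ℝ =>
          (((Nat.card {n : ℕ // iteratedDeriv n g 0 ≠ 0 ∧ (n : ℝ) ≤ t} : ℕ) : ℝ) -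
            ((Nat.card {n : ℕ // iteratedDeriv n g 0 ≠ 0 ∧ (n : ℝ) ≤ ξ * t} : ℕ) : ℝ)) /
            ((1 - ξ) * t)) atTop = 1 := by
  apply Tendsto.limsup_eq
  have hξ : 0 < 1 - ξ := by linarith
  have hb : ∀ᶠ t : ℝ in atTop, |(((Nat.card {n : ℕ // iteratedDeriv n g 0 ≠ 0 ∧ (n : ℝ) ≤ t} : ℕ) : ℝ) -
            ((Nat.card {n : ℕ // iteratedDeriv n g 0 ≠ 0 ∧ (n : ℝ) ≤ ξ * t} : ℕ) : ℝ)) /
            ((1 - ξ) * t) - 1| ≤ (1 / (1 - ξ)) * t⁻¹ := by
    filter_upwards [eventually_gt_atTop 0] with t ht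
    have hξt : 0 ≤ ξ * t := by positivity
    rw [card_eq t ht.le, card_eq _ hξt]
    have a1 := Nat.floor_le ht.le
    have a2 := Nat.lt_floor_add_one t
    have a3 := Nat.floor_le hξt
    have a4 := Nat.lt_floor_add_one (ξ * t)
    have hpos : 0 < (1 - ξ) * t := by positivity
    rw [div_sub_one hpos.ne', abs_div, abs_of_pos hpos, div_le_iff₀ hpos]
    have e : 1 / (1 - ξ) * t⁻¹ * ((1 - ξ) * t) = 1 := by
      field_simp
    rw [e, abs_le]
    push_cast
    constructor <;> nlinarith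
  have hz : Tendsto (fun t : ℝ => (1 / (1 - ξ)) * t⁻¹) atTop (𝓝 0) := by
    have := (tendsto_inv_atTop_zero (𝕜 := ℝ)).const_mul (1 / (1 - ξ))
    rwa [mul_zero] at this
  rw [tendsto_iff_norm_sub_tendsto_zero]
  refine squeeze_zero' (Eventually.of_forall fun t => norm_nonneg _) ?_ hz
  filter_upwards [hb] with t ht
  rw [Real.norm_eq_abs]
  exact ht

/-- The negation of the preceding statement: Every non-constant entire f of finite order ρ whose exponent set (nonzero Taylor coefficients) has maximal Pólya density Δ with ρΔ<1 has no finite asymptotic value along any curve tending to infinity. -/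
theorem result :
    ¬ (∀ f : ℂ → ℂ, Differentiable ℂ f → (∃ z w : ℂ, f z ≠ f w) →
    ∀ ρ Δ : ℝ,
      (∀ ε : ℝ, 0 < ε → ∀ᶠ r : ℝ in atTop, ∀ z : ℂ, ‖z‖ = r →
          ‖f z‖ ≤ Real.exp (r ^ (ρ + ε))) →
      Tendsto (fun ξ : ℝ => Filter.limsup (fun t : ℝ =>
          (((Nat.card {n : ℕ // iteratedDeriv n f 0 ≠ 0 ∧ (n : ℝ) ≤ t} : ℕ) : ℝ) -
            ((Nat.card {n : ℕ // iteratedDeriv n f 0 ≠ 0 ∧ (n : ℝ) ≤ ξ * t} : ℕ) : ℝ)) /
            ((1 - ξ) * t)) atTop)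
        (𝓝[<] (1 : ℝ)) (𝓝 Δ) →
      ρ * Δ < 1 →
      ¬ ∃ a : ℂ, ∃ γ : ℝ → ℂ, Continuous γ ∧
          Tendsto (fun t : ℝ => ‖γ t‖) atTop atTop ∧
          Tendsto (fun t : ℝ => f (γ t)) atTop (𝓝 a)) := by
  intro H
  refine H g g_diff ⟨0, ((Real.pi : ℝ) : ℂ) ^ 2, ?_⟩ (1 / 2) 1 ?_ ?_ (by norm_num)
    ⟨0, fun t => ((t : ℝ) : ℂ) ^ 2, by fun_prop, ?_, ?_⟩
  · have h := g_sq ((Real.pi : ℝ) : ℂ)
    rw [Complex.sin_pi] at h
    have hpi : ((Real.pi : ℝ) : ℂ) ≠ 0 := by exact_mod_cast Real.pi_ne_zero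
    have h2 : g (((Real.pi : ℝ) : ℂ) ^ 2) = 0 := by
      rcases mul_eq_zero.1 h with h3 | h3
      · exact h3
      · exact absurd h3 hpi
    rw [g_zero, h2]
    exact one_ne_zero
  · intro ε hε
    filter_upwards [eventually_ge_atTop 1] with r hr z hz
    refine (g_bound z).trans (Real.exp_le_exp.2 ?_)
    rw [hz, Real.sqrt_eq_rpow]
    exact Real.rpow_le_rpow_of_exponent_le hr (by linarith)
  · have h : ∀ᶠ ξ : ℝ in 𝓝[<] (1 : ℝ), (1 : ℝ) = Filter.limsup (fun t : ℝ =>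
          (((Nat.card {n : ℕ // iteratedDeriv n g 0 ≠ 0 ∧ (n : ℝ) ≤ t} : ℕ) : ℝ) -
            ((Nat.card {n : ℕ // iteratedDeriv n g 0 ≠ 0 ∧ (n : ℝ) ≤ ξ * t} : ℕ) : ℝ)) /
            ((1 - ξ) * t)) atTop := by
      have h1 : ∀ᶠ ξ : ℝ in 𝓝[<] (1 : ℝ), 0 < ξ :=
        (eventually_gt_nhds (by norm_num : (0 : ℝ) < 1)).filter_mono nhdsWithin_le_nhds
      filter_upwards [h1, self_mem_nhdsWithin] with ξ h0 h2
      exact (dens ξ h0 h2).symm
    exact tendsto_const_nhds.congr' h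
  · have h : Tendsto (fun t : ℝ => t ^ 2) atTop atTop := tendsto_pow_atTop (by norm_num)
    refine h.congr fun t => ?_
    rw [norm_pow, Complex.norm_real, Real.norm_eq_abs, sq_abs]
  · rw [tendsto_zero_iff_norm_tendsto_zero]
    refine squeeze_zero' (Eventually.of_forall fun t => norm_nonneg _) ?_
      (tendsto_inv_atTop_zero (𝕜 := ℝ))
    filter_upwards [eventually_gt_atTop 0] with t ht
    have h := congrArg norm (g_sq (t : ℂ))
    rw [norm_mul, Complex.norm_real, Real.norm_eq_abs, abs_of_pos ht, ← Complex.ofReal_sin,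
      Complex.norm_real, Real.norm_eq_abs] at h
    have h2 := Real.abs_sin_le_one t
    rw [← h] at h2
    rw [← one_div, le_div_iff₀ ht]
    exact h2

end Pool.Agent.S04252
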