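import Pool.Statements.S04908
-- import your own Pool.Agent.* helpers here

set_option autoImplicit false
open Pool Pool.MP_68b5a7_an

namespace Pool.Agent.S04908

/-!
The counterexample. Let `α` be irrational with `0 < α < 1 / 2`, let `T` be the exchange of the three
intervals `[0, 1/2), [1/2, 1 - α), [1 - α, 1)` in reversed order and let `S` be its mirror image. The
product `T × S` is a rectangle exchange map of the unit square (with nine rectangles). It maps the
point `(1/2, 0)` to `(α, 1 - α)` and all the following points of the orbit lie on the antidiagonal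
`x + y = 1` as well, since they avoid the discontinuities: their first coordinate has the form
`k α + r / 2` with integers `k ≥ 1` and `r`. The antidiagonal is at a positive distance of
`(1/2, 0)` on the torus.
-/

/-- the irrational number `α` -/
noncomputable def al : ℝ := √2 / 4

lemma al_irr : Irrational al := by
  unfold al
  have := (irrational_sqrt_two).div_natCast (m := 4) (by norm_num)
  simpa using this

lemma al_pos : 0 < al := by unfold al; positivity

lemma al_lt : al < 1 / 2 := by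
  unfold al
  have : √2 < 2 := by
    rw [Real.sqrt_lt' (by norm_num)]; norm_num
  linarith

/-- left endpoints of the intervals of `T` -/
noncomputable def A : Fin 3 → ℝ := ![0, 1 / 2, 1 - al]
/-- right endpoints of the intervals of `T` -/
noncomputable def B : Fin 3 → ℝ := ![1 / 2, 1 - al, 1]
/-- translations of `T` -/
noncomputable def V : Fin 3 → ℝ := ![1 / 2, al - 1 / 2, al - 1]
/-- left endpoints of the intervals of `S` -/
noncomputable def C : Fin 3 → ℝ := ![0, al, 1 / 2]
/-- right endpoints of the intervals of `S` -/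
noncomputable def D : Fin 3 → ℝ := ![al, 1 / 2, 1]
/-- translations of `S` -/
noncomputable def W : Fin 3 → ℝ := ![1 - al, 1 / 2 - al, -(1 / 2)]

/-- the first coordinate of the map -/
noncomputable def T (x : ℝ) : ℝ :=
  if x < 1 / 2 then x + 1 / 2 else if x < 1 - al then x + (al - 1 / 2) else x + (al - 1)

/-- the second coordinate of the map -/
noncomputable def S (y : ℝ) : ℝ :=
  if y < al then y + (1 - al) else if y < 1 / 2 then y + (1 / 2 - al) else y + (-(1 / 2))

lemma prod_disj {A B C D : Fin 3 → ℝ}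
    (h1 : Pairwise fun i j : Fin 3 => Disjoint (Set.Ico (A i) (B i)) (Set.Ico (A j) (B j)))
    (h2 : Pairwise fun i j : Fin 3 => Disjoint (Set.Ico (C i) (D i)) (Set.Ico (C j) (D j))) :
    Pairwise fun r s : Fin (3 * 3) =>
      Disjoint (Set.Ico (A (finProdFinEquiv.symm r).1) (B (finProdFinEquiv.symm r).1) ×ˢ
          Set.Ico (C (finProdFinEquiv.symm r).2) (D (finProdFinEquiv.symm r).2))
        (Set.Ico (A (finProdFinEquiv.symm s).1) (B (finProdFinEquiv.symm s).1) ×ˢ
          Set.Ico (C (finProdFinEquiv.symm s).2) (D (finProdFinEquiv.symm s).2)) := by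
  intro r s hrs
  rw [Set.disjoint_prod]
  by_cases h : (finProdFinEquiv.symm r).1 = (finProdFinEquiv.symm s).1
  · right
    apply h2
    intro h'
    exact hrs (finProdFinEquiv.symm.injective (Prod.ext h h'))
  · left
    exact h1 h

lemma prod_union {A B C D : Fin 3 → ℝ}
    (h1 : ∀ x, (∃ i, x ∈ Set.Ico (A i) (B i)) ↔ x ∈ Set.Ico (0:ℝ) 1)
    (h2 : ∀ x, (∃ i, x ∈ Set.Ico (C i) (D i)) ↔ x ∈ Set.Ico (0:ℝ) 1) :
    (⋃ r : Fin (3 * 3), Set.Ico (A (finProdFinEquiv.symm r).1) (B (finProdFinEquiv.symm r).1) ×ˢ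
          Set.Ico (C (finProdFinEquiv.symm r).2) (D (finProdFinEquiv.symm r).2)) =
      Set.Ico (0:ℝ) 1 ×ˢ Set.Ico (0:ℝ) 1 := by
  ext p
  rw [Set.mem_iUnion, Set.mem_prod, ← h1, ← h2]
  constructor
  · rintro ⟨r, hr⟩
    exact ⟨⟨_, hr.1⟩, ⟨_, hr.2⟩⟩
  · rintro ⟨⟨i, hi⟩, ⟨j, hj⟩⟩
    refine ⟨finProdFinEquiv (i, j), ?_⟩
    rw [Equiv.symm_apply_apply]
    exact ⟨hi, hj⟩

lemma disj3 {A B : Fin 3 → ℝ} (h01 : B 0 ≤ A 1 ∨ B 1 ≤ A 0) (h02 : B 0 ≤ A 2 ∨ B 2 ≤ A 0)
    (h12 : B 1 ≤ A 2 ∨ B 2 ≤ A 1) :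
    Pairwise fun i j : Fin 3 => Disjoint (Set.Ico (A i) (B i)) (Set.Ico (A j) (B j)) := by
  have key : ∀ i j : Fin 3, (B i ≤ A j ∨ B j ≤ A i) →
      Disjoint (Set.Ico (A i) (B i)) (Set.Ico (A j) (B j)) := by
    intro i j h
    rw [Set.disjoint_left]
    rintro x ⟨hx1, hx2⟩ ⟨hx3, hx4⟩
    rcases h with h | h <;> linarith
  intro i j hij
  fin_cases i <;> fin_cases j <;> first
    | exact absurd rfl hij
    | exact key _ _ h01
    | exact key _ _ h02
    | exact key _ _ h12
    | exact (key _ _ h01).symm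
    | exact (key _ _ h02).symm
    | exact (key _ _ h12).symm

lemma union3 {A B : Fin 3 → ℝ} (h : ∀ x, (x ∈ Set.Ico (A 0) (B 0) ∨ x ∈ Set.Ico (A 1) (B 1) ∨
    x ∈ Set.Ico (A 2) (B 2)) ↔ x ∈ Set.Ico (0:ℝ) 1) :
    ∀ x, (∃ i, x ∈ Set.Ico (A i) (B i)) ↔ x ∈ Set.Ico (0:ℝ) 1 := by
  intro x
  rw [← h]
  constructor
  · rintro ⟨i, hi⟩
    fin_cases i
    · exact Or.inl hi
    · exact Or.inr (Or.inl hi)
    · exact Or.inr (Or.inr hi)
  · rintro (h | h | h)
    · exact ⟨0, h⟩
    · exact ⟨1, h⟩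
    · exact ⟨2, h⟩

/-- the orbit of `(1/2, 0)` after the first step -/
lemma orbit (n : ℕ) : ∃ (k : ℕ) (r : ℤ), 1 ≤ k ∧
    ((fun p : ℝ × ℝ => (T p.1, S p.2))^[n + 1] (1 / 2, 0)).1 = k * al + r / 2 ∧
    0 < ((fun p : ℝ × ℝ => (T p.1, S p.2))^[n + 1] (1 / 2, 0)).1 ∧
    ((fun p : ℝ × ℝ => (T p.1, S p.2))^[n + 1] (1 / 2, 0)).1 < 1 ∧
    ((fun p : ℝ × ℝ => (T p.1, S p.2))^[n + 1] (1 / 2, 0)).1 +
      ((fun p : ℝ × ℝ => (T p.1, S p.2))^[n + 1] (1 / 2, 0)).2 = 1 := by
  have h0 := al_pos
  have h1 := al_lt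
  have hirr := al_irr
  induction n with
  | zero =>
    refine ⟨1, 0, le_rfl, ?_⟩
    have hT : T (1 / 2) = al := by
      unfold T
      rw [if_neg (by norm_num), if_pos (by linarith)]; ring
    have hS : S 0 = 1 - al := by
      unfold S
      rw [if_pos h0]; ring
    simp only [zero_add, Function.iterate_one, hT, hS]
    refine ⟨by push_cast; ring, h0, by linarith, by ring⟩
  | succ n ih =>
    obtain ⟨k, r, hk, e, p0, p1, hs⟩ := ih
    rw [Function.iterate_succ_apply']
    set p := (fun p : ℝ × ℝ => (T p.1, S p.2))^[n + 1] (1 / 2, 0) with hp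
    -- the orbit avoids the discontinuities
    have hk1 : (1 : ℝ) ≤ k := by exact_mod_cast hk
    have ne1 : p.1 ≠ 1 / 2 := by
      intro h
      rw [e] at h
      apply hirr
      refine ⟨((1 - r) / 2 : ℚ) / k, ?_⟩
      push_cast
      rw [div_eq_iff (by positivity)]
      linarith
    have ne2 : p.1 ≠ 1 - al := by
      intro h
      rw [e] at h
      apply hirr
      refine ⟨(1 - r / 2 : ℚ) / (k + 1), ?_⟩
      push_cast
      rw [div_eq_iff (by positivity)]
      linarith
    simp only []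
    have hy : p.2 = 1 - p.1 := by linarith
    rw [hy]
    rcases lt_or_gt_of_ne ne1 with c1 | c1
    · refine ⟨k, r + 1, hk, ?_⟩
      have hT : T p.1 = p.1 + 1 / 2 := by unfold T; rw [if_pos c1]
      have hS : S (1 - p.1) = 1 / 2 - p.1 := by
        unfold S
        rw [if_neg (by linarith), if_neg (by linarith)]; ring
      rw [hT, hS]
      refine ⟨by rw [e]; push_cast; ring, by linarith, by linarith, by ring⟩
    · rcases lt_or_gt_of_ne ne2 with c2 | c2
      · refine ⟨k + 1, r - 1, by omega, ?_⟩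
        have hT : T p.1 = p.1 + (al - 1 / 2) := by
          unfold T; rw [if_neg (by linarith), if_pos c2]
        have hS : S (1 - p.1) = 3 / 2 - al - p.1 := by
          unfold S
          rw [if_neg (by linarith), if_pos (by linarith)]; ring
        rw [hT, hS]
        refine ⟨by rw [e]; push_cast; ring, by linarith, by linarith, by ring⟩
      · refine ⟨k + 1, r - 2, by omega, ?_⟩
        have hT : T p.1 = p.1 + (al - 1) := by
          unfold T; rw [if_neg (by linarith), if_neg (by linarith)]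
        have hS : S (1 - p.1) = 2 - al - p.1 := by
          unfold S
          rw [if_pos (by linarith)]; ring
        rw [hT, hS]
        refine ⟨by rw [e]; push_cast; ring, by linarith, by linarith, by ring⟩

/-- The negation of the preceding statement: For every partition of [0,1)² into finitely many half-open rectangles whose translates also partition it, the piecewise-translation map returns every point to within ε of itself, in Euclidean torus distance, at some time N ≥ 1. -/
theorem result :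
    ¬ (∀ (m : ℕ) (a1 b1 a2 b2 v1 v2 : Fin m → ℝ) (φ : ℝ × ℝ → ℝ × ℝ),
      Pairwise (fun r s : Fin m =>
        Disjoint (Set.Ico (a1 r) (b1 r) ×ˢ Set.Ico (a2 r) (b2 r))
          (Set.Ico (a1 s) (b1 s) ×ˢ Set.Ico (a2 s) (b2 s))) →
      (⋃ r : Fin m, Set.Ico (a1 r) (b1 r) ×ˢ Set.Ico (a2 r) (b2 r))
          = Set.Ico (0:ℝ) 1 ×ˢ Set.Ico (0:ℝ) 1 →
      Pairwise (fun r s : Fin m =>
        Disjoint
          (Set.Ico (a1 r + v1 r) (b1 r + v1 r) ×ˢ Set.Ico (a2 r + v2 r) (b2 r + v2 r))
          (Set.Ico (a1 s + v1 s) (b1 s + v1 s) ×ˢ Set.Ico (a2 s + v2 s) (b2 s + v2 s))) →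
      (⋃ r : Fin m,
          Set.Ico (a1 r + v1 r) (b1 r + v1 r) ×ˢ Set.Ico (a2 r + v2 r) (b2 r + v2 r))
          = Set.Ico (0:ℝ) 1 ×ˢ Set.Ico (0:ℝ) 1 →
      (∀ r : Fin m, ∀ x ∈ Set.Ico (a1 r) (b1 r) ×ˢ Set.Ico (a2 r) (b2 r),
          φ x = (x.1 + v1 r, x.2 + v2 r)) →
      ∀ x ∈ Set.Ico (0:ℝ) 1 ×ˢ Set.Ico (0:ℝ) 1, ∀ ε : ℝ, 0 < ε →
        ∃ N : ℕ, 1 ≤ N ∧ ∃ k1 k2 : ℤ,
          ((φ^[N] x).1 - x.1 + (k1 : ℝ)) ^ 2 + ((φ^[N] x).2 - x.2 + (k2 : ℝ)) ^ 2 ≤ ε ^ 2) := by
  intro h
  have h0 := al_pos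
  have h1 := al_lt
  have key := h (3 * 3) (fun r => A (finProdFinEquiv.symm r).1) (fun r => B (finProdFinEquiv.symm r).1)
    (fun r => C (finProdFinEquiv.symm r).2) (fun r => D (finProdFinEquiv.symm r).2)
    (fun r => V (finProdFinEquiv.symm r).1) (fun r => W (finProdFinEquiv.symm r).2)
    (fun p => (T p.1, S p.2)) ?_ ?_ ?_ ?_ ?_ (1 / 2, 0) ?_ (1 / 4) (by norm_num)
  · obtain ⟨N, hN, k1, k2, hle⟩ := key
    obtain ⟨n, rfl⟩ : ∃ n, N = n + 1 := ⟨N - 1, by omega⟩
    obtain ⟨k, r, -, -, -, -, hs⟩ := orbit n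
    set p := (fun p : ℝ × ℝ => (T p.1, S p.2))^[n + 1] (1 / 2, 0) with hp
    simp only [] at hle
    have hsum : (p.1 - 1 / 2 + k1) + (p.2 - 0 + k2) = 1 / 2 + ((k1 + k2 : ℤ) : ℝ) := by
      push_cast; linarith
    set u := p.1 - 1 / 2 + (k1 : ℝ) with hu
    set w := p.2 - 0 + (k2 : ℝ) with hw
    have h2 : (1 / 2 : ℝ) ≤ |u + w| := by
      rw [hsum]
      rcases le_or_gt 0 (k1 + k2) with hc | hc
      · have : (0 : ℝ) ≤ ((k1 + k2 : ℤ) : ℝ) := by exact_mod_cast hc
        rw [abs_of_nonneg (by linarith)]; linarith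
      · have : ((k1 + k2 : ℤ) : ℝ) ≤ -1 := by exact_mod_cast (by omega : k1 + k2 ≤ -1)
        rw [abs_of_nonpos (by linarith)]; linarith
    have h3 : (1 / 4 : ℝ) ≤ (u + w) ^ 2 := by
      rw [← sq_abs (u + w)]; nlinarith
    nlinarith [sq_nonneg (u - w)]
  · exact prod_disj (disj3 (by simp [A, B]) (by simp [A, B]; left; linarith)
      (by simp [A, B])) (disj3 (by simp [C, D]) (by simp [C, D]; left; linarith) (by simp [C, D]))
  · refine prod_union (union3 fun x => ?_) (union3 fun x => ?_)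
    · simp only [A, B, Set.mem_Ico, Matrix.cons_val_zero, Matrix.cons_val_one, Matrix.cons_val]
      constructor
      · rintro (⟨h2, h3⟩ | ⟨h2, h3⟩ | ⟨h2, h3⟩) <;> constructor <;> linarith
      · rintro ⟨h2, h3⟩
        rcases lt_or_ge x (1 / 2) with c | c
        · exact Or.inl ⟨h2, c⟩
        · rcases lt_or_ge x (1 - al) with c' | c'
          · exact Or.inr (Or.inl ⟨c, c'⟩)
          · exact Or.inr (Or.inr ⟨c', h3⟩)
    · simp only [C, D, Set.mem_Ico, Matrix.cons_val_zero, Matrix.cons_val_one, Matrix.cons_val]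
      constructor
      · rintro (⟨h2, h3⟩ | ⟨h2, h3⟩ | ⟨h2, h3⟩) <;> constructor <;> linarith
      · rintro ⟨h2, h3⟩
        rcases lt_or_ge x al with c | c
        · exact Or.inl ⟨h2, c⟩
        · rcases lt_or_ge x (1 / 2) with c' | c'
          · exact Or.inr (Or.inl ⟨c, c'⟩)
          · exact Or.inr (Or.inr ⟨c', h3⟩)
  · refine prod_disj (A := fun i => A i + V i) (B := fun i => B i + V i) (C := fun i => C i + W i)
      (D := fun i => D i + W i) (disj3 ?_ ?_ ?_) (disj3 ?_ ?_ ?_)
    · right; simp only [A, B, V, Matrix.cons_val_zero, Matrix.cons_val_one, Matrix.cons_val]; linarith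
    · right; simp only [A, B, V, Matrix.cons_val_zero, Matrix.cons_val_one, Matrix.cons_val]; linarith
    · right; simp only [A, B, V, Matrix.cons_val_zero, Matrix.cons_val_one, Matrix.cons_val]; linarith
    · right; simp only [C, D, W, Matrix.cons_val_zero, Matrix.cons_val_one, Matrix.cons_val]; linarith
    · right; simp only [C, D, W, Matrix.cons_val_zero, Matrix.cons_val_one, Matrix.cons_val]; linarith
    · right; simp only [C, D, W, Matrix.cons_val_zero, Matrix.cons_val_one, Matrix.cons_val]; linarith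
  · refine prod_union (A := fun i => A i + V i) (B := fun i => B i + V i) (C := fun i => C i + W i)
      (D := fun i => D i + W i) (union3 fun x => ?_) (union3 fun x => ?_)
    · simp only [A, B, V, Set.mem_Ico, Matrix.cons_val_zero, Matrix.cons_val_one, Matrix.cons_val]
      constructor
      · rintro (⟨h2, h3⟩ | ⟨h2, h3⟩ | ⟨h2, h3⟩) <;> constructor <;> linarith
      · rintro ⟨h2, h3⟩
        rcases lt_or_ge x al with c | c
        · exact Or.inr (Or.inr ⟨by linarith, by linarith⟩)
        · rcases lt_or_ge x (1 / 2) with c' | c'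
          · exact Or.inr (Or.inl ⟨by linarith, by linarith⟩)
          · exact Or.inl ⟨by linarith, by linarith⟩
    · simp only [C, D, W, Set.mem_Ico, Matrix.cons_val_zero, Matrix.cons_val_one, Matrix.cons_val]
      constructor
      · rintro (⟨h2, h3⟩ | ⟨h2, h3⟩ | ⟨h2, h3⟩) <;> constructor <;> linarith
      · rintro ⟨h2, h3⟩
        rcases lt_or_ge x (1 / 2) with c | c
        · exact Or.inr (Or.inr ⟨by linarith, by linarith⟩)
        · rcases lt_or_ge x (1 - al) with c' | c'
          · exact Or.inr (Or.inl ⟨by linarith, by linarith⟩)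
          · exact Or.inl ⟨by linarith, by linarith⟩
  · intro r x hx
    obtain ⟨hx1, hx2⟩ := hx
    have e1 : T x.1 = x.1 + V (finProdFinEquiv.symm r).1 := by
      revert hx1
      generalize (finProdFinEquiv.symm r).1 = i
      intro hx1
      fin_cases i
      · simp only [A, B, V, Set.mem_Ico, Fin.zero_eta, Fin.mk_one, Fin.reduceFinMk,
          Matrix.cons_val_zero, Matrix.cons_val_one, Matrix.cons_val] at hx1 ⊢
        unfold T; rw [if_pos hx1.2]
      · simp only [A, B, V, Set.mem_Ico, Fin.zero_eta, Fin.mk_one, Fin.reduceFinMk,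
          Matrix.cons_val_zero, Matrix.cons_val_one, Matrix.cons_val] at hx1 ⊢
        unfold T; rw [if_neg (by linarith), if_pos hx1.2]
      · simp only [A, B, V, Set.mem_Ico, Fin.zero_eta, Fin.mk_one, Fin.reduceFinMk,
          Matrix.cons_val_zero, Matrix.cons_val_one, Matrix.cons_val] at hx1 ⊢
        unfold T; rw [if_neg (by linarith), if_neg (by linarith)]
    have e2 : S x.2 = x.2 + W (finProdFinEquiv.symm r).2 := by
      revert hx2
      generalize (finProdFinEquiv.symm r).2 = i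
      intro hx2
      fin_cases i
      · simp only [C, D, W, Set.mem_Ico, Fin.zero_eta, Fin.mk_one, Fin.reduceFinMk,
          Matrix.cons_val_zero, Matrix.cons_val_one, Matrix.cons_val] at hx2 ⊢
        unfold S; rw [if_pos hx2.2]
      · simp only [C, D, W, Set.mem_Ico, Fin.zero_eta, Fin.mk_one, Fin.reduceFinMk,
          Matrix.cons_val_zero, Matrix.cons_val_one, Matrix.cons_val] at hx2 ⊢
        unfold S; rw [if_neg (by linarith), if_pos hx2.2]
      · simp only [C, D, W, Set.mem_Ico, Fin.zero_eta, Fin.mk_one, Fin.reduceFinMk,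
          Matrix.cons_val_zero, Matrix.cons_val_one, Matrix.cons_val] at hx2 ⊢
        unfold S; rw [if_neg (by linarith), if_neg (by linarith)]
    exact Prod.ext e1 e2
  · constructor <;> constructor <;> norm_num

end Pool.Agent.S04908
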