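import Pool.Statements.S07487
import Pool.Agent.Helper539.General

set_option autoImplicit false
open Pool Pool.MP_1cfd87_co

namespace Pool.Agent.S07487

open SimpleGraph Pool.Agent.Helper539

/-- the arrow relation in the form of the frozen statement -/
theorem arrows_iff {k m t : ℕ} (G : SimpleGraph (Fin k)) (F : SimpleGraph (Fin m)) :
    (∀ R : SimpleGraph (Fin m), R ≤ F →
            (∃ f : Fin k → Fin m, Function.Injective f ∧
                ∀ a b, G.Adj a b → R.Adj (f a) (f b)) ∨
            (∃ g : Fin t ⊕ Fin t → Fin m, Function.Injective g ∧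
                ∀ i, F.Adj (g (Sum.inl i)) (g (Sum.inr i)) ∧
                  ¬ R.Adj (g (Sum.inl i)) (g (Sum.inr i)))) ↔
      Arrows F G (matchingGraph t) := by
  unfold Arrows
  refine forall_congr' fun R => forall_congr' fun _ => or_congr ?_ ?_
  · constructor
    · rintro ⟨f, hf, h⟩
      exact ⟨⟨⟨f, fun {a b} hab => h a b hab⟩, hf⟩⟩
    · rintro ⟨f⟩
      exact ⟨f, f.injective, fun a b hab => f.toHom.map_adj hab⟩
  · rw [matchingGraph_isContained_iff]
    constructor
    · rintro ⟨g, hg, h⟩
      refine ⟨fun x => if x.2 then g (Sum.inr x.1) else g (Sum.inl x.1), ?_, fun i => ?_⟩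
      · rintro ⟨i, a⟩ ⟨j, b⟩ hij
        cases a <;> cases b <;> simp only [if_true, if_false, Bool.false_eq_true] at hij
        · have := hg hij; simp only [Sum.inl.injEq] at this; rw [this]
        · have := hg hij; simp at this
        · have := hg hij; simp at this
        · have := hg hij; simp only [Sum.inr.injEq] at this; rw [this]
      · rw [SimpleGraph.sdiff_adj]
        exact h i
    · rintro ⟨f, hf, h⟩
      refine ⟨Sum.elim (fun i => f (i, false)) (fun i => f (i, true)), ?_, fun i => ?_⟩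
      · rintro (i | i) (j | j) hij <;> simp only [Sum.elim_inl, Sum.elim_inr] at hij <;>
          have := hf hij <;> simp_all
      · have := h i
        rw [SimpleGraph.sdiff_adj] at this
        exact this

/-- For any sequence of graphs without isolated vertices, with at least one edge, bounded max degree and vertex count tending to infinity, the limsup over t of the size Ramsey number of (G_n, tK_2) divided by t times ∣E(G_n)∣ tends to 0. -/
theorem result :
  ∀ (k : ℕ → ℕ) (G : ∀ n, SimpleGraph (Fin (k n))),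
    Filter.Tendsto k Filter.atTop Filter.atTop →
    (∃ D : ℕ, ∀ n v, ((G n).neighborSet v).ncard ≤ D) →
    (∀ n, ∃ v w, (G n).Adj v w) →
    (∀ n v, ∃ w, (G n).Adj v w) →
    ∀ ε : ℝ, 0 < ε → ∃ N : ℕ, ∀ n ≥ N, ∃ T : ℕ, ∀ t ≥ T,
      ((sInf {e : ℕ | ∃ (m : ℕ) (F : SimpleGraph (Fin m)), F.edgeSet.ncard = e ∧
          ∀ R : SimpleGraph (Fin m), R ≤ F →
            (∃ f : Fin (k n) → Fin m, Function.Injective f ∧
                ∀ a b, (G n).Adj a b → R.Adj (f a) (f b)) ∨
            (∃ g : Fin t ⊕ Fin t → Fin m, Function.Injective g ∧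
                ∀ i, F.Adj (g (Sum.inl i)) (g (Sum.inr i)) ∧
                  ¬ R.Adj (g (Sum.inl i)) (g (Sum.inr i)))} : ℕ) : ℝ)
        / ((t : ℝ) * (((G n).edgeSet.ncard : ℕ) : ℝ)) ≤ ε := by
  intro k G hk hD hedge hiso ε hε
  obtain ⟨D, hD⟩ := hD
  obtain ⟨η, hη, hgen⟩ := general_case.{0} (ε / 2) (half_pos hε)
  -- for large `n` there are many vertices, hence many edges
  obtain ⟨M, hM⟩ := exists_nat_gt ((D : ℝ) / η)
  obtain ⟨N, hN⟩ := Filter.eventually_atTop.1 (hk.eventually_ge_atTop (2 * M))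
  refine ⟨N, fun n hn => ?_⟩
  have hne : (G n).edgeSet.Nonempty := by
    obtain ⟨v, w, h⟩ := hedge n
    exact ⟨s(v, w), h⟩
  have hcard := card_le_two_mul (G n) (hiso n)
  rw [Fintype.card_fin] at hcard
  have hMe : M ≤ (G n).edgeSet.ncard := by
    have := hN n hn
    omega
  have hm : (0 : ℝ) < (G n).edgeSet.ncard := by
    have : 0 < (G n).edgeSet.ncard := (Set.ncard_pos (Set.toFinite _)).2 hne
    exact_mod_cast this
  obtain ⟨t₀, ht₀, hbd⟩ := hgen (Fin (k n)) (G n) hne (hiso n) (by
    intro v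
    have h1 : (((G n).neighborSet v).ncard : ℝ) ≤ D := by exact_mod_cast hD n v
    have h2 : (M : ℝ) ≤ (G n).edgeSet.ncard := by exact_mod_cast hMe
    rw [div_lt_iff₀ hη] at hM
    nlinarith)
  obtain ⟨ρ, hρ, -, hρle⟩ := exists_limit (G n)
  have ht0 : (0 : ℝ) < t₀ := by exact_mod_cast ht₀
  have h1 := hρle t₀ (by omega)
  have h2 : (sizeRamsey (G n) (matchingGraph t₀) : ℝ) / (t₀ * (G n).edgeSet.ncard) ≤ ε / 2 := by
    rw [div_le_iff₀ (by positivity)]
    exact hbd
  have h3 : ρ < ε := by linarith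
  obtain ⟨T, hT⟩ := Filter.eventually_atTop.1 ((tendsto_order.1 hρ).2 ε h3)
  refine ⟨T, fun t ht => ?_⟩
  have h4 := (hT t ht).le
  refine le_trans (le_of_eq ?_) h4
  congr 2
  unfold sizeRamsey
  congr 1
  ext e
  simp only [Set.mem_ofPred_eq]
  refine exists_congr fun m => exists_congr fun F => and_congr_right fun _ => ?_
  exact arrows_iff (G n) F

end Pool.Agent.S07487
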