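import Pool.Statements.S07891

set_option autoImplicit false
open Pool Pool.MP_2e1090_co

namespace Pool.Agent.S07891

/-- Table of the values of the tropical Plücker vector (two bits per subset). The vector comes from
the tropical determinants of the matrix `(I | V)`, where the six columns of `V` are the points
`(2,0,0), (1,2,0), (1,0,0), (2,2,0), (2,1,0), (0,0,0)`. -/
def T : ℕ := 528294531135665246352339784923184621349171811939182861316820715870238910560382186982658201504568433287712451078688823385922164429620112532831119517164568607116092151370765067422309868368929873260698167948197730367851107450730578267219444532606122575755924672758379708416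

/-- value of the tropical Plücker vector at the subset with bit mask `m` -/
def wz (m : ℕ) : ℕ := T / 4 ^ m % 4

/-- bit mask of a triple -/
def cd (a b c : Fin 9) : ℕ := 2 ^ a.1 + 2 ^ b.1 + 2 ^ c.1

/-- bit mask of a finite set -/
def code (B : Finset (Fin 9)) : ℕ := ∑ i ∈ B, 2 ^ i.1

/-- the tropical Plücker vector -/
noncomputable def w (B : Finset (Fin 9)) : ℝ := (wz (code B) : ℝ)

lemma code_tri {a b c : Fin 9} (h1 : a ≠ b) (h2 : a ≠ c) (h3 : b ≠ c) :
    code {a, b, c} = cd a b c := by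
  unfold code cd
  rw [Finset.sum_insert (by simp [h1, h2]), Finset.sum_insert (by simp [h3]),
    Finset.sum_singleton]
  ring

lemma sum_tri (f : Fin 9 → ℝ) {a b c : Fin 9} (h1 : a ≠ b) (h2 : a ≠ c) (h3 : b ≠ c) :
    ∑ i ∈ ({a, b, c} : Finset (Fin 9)), f i = f a + f b + f c := by
  rw [Finset.sum_insert (by simp [h1, h2]), Finset.sum_insert (by simp [h3]),
    Finset.sum_singleton]
  ring

lemma w_tri {a b c : Fin 9} (h1 : a ≠ b) (h2 : a ≠ c) (h3 : b ≠ c) :
    w {a, b, c} = (wz (cd a b c) : ℝ) := by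
  unfold w; rw [code_tri h1 h2 h3]

lemma exists_sorted {B : Finset (Fin 9)} (hB : B.card = 3) :
    ∃ x y z : Fin 9, x < y ∧ y < z ∧ B = {x, y, z} := by
  obtain ⟨a, b, c, hab, hac, hbc, rfl⟩ := Finset.card_eq_three.1 hB
  rcases lt_or_gt_of_ne hab with h1 | h1 <;> rcases lt_or_gt_of_ne hac with h2 | h2 <;>
    rcases lt_or_gt_of_ne hbc with h3 | h3
  · exact ⟨a, b, c, h1, h3, rfl⟩
  · exact ⟨a, c, b, h2, h3, by ext t; simp; tauto⟩
  · exact absurd (h1.trans h3) (not_lt.2 h2.le)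
  · exact ⟨c, a, b, h2, h1, by ext t; simp; tauto⟩
  · exact ⟨b, a, c, h1, h2, by ext t; simp; tauto⟩
  · exact absurd (h3.trans h1) (not_lt.2 h2.le)
  · exact ⟨b, c, a, h3, h2, by ext t; simp; tauto⟩
  · exact ⟨c, b, a, h3, h1, by ext t; simp; tauto⟩

/-- twice the linear functional exhibiting the cell of four bases of an octahedron -/
def c2 (s i j k l x : Fin 9) : ℤ :=
  if x = s then 40
  else if x = i then 2 * ((wz (cd s i k) : ℤ) - wz (cd s k l)) + ((wz (cd s i l) : ℤ) - wz (cd s i k))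
  else if x = j then 2 * ((wz (cd s j l) : ℤ) - wz (cd s k l)) - ((wz (cd s i l) : ℤ) - wz (cd s i k))
  else if x = k then - ((wz (cd s i l) : ℤ) - wz (cd s i k))
  else if x = l then ((wz (cd s i l) : ℤ) - wz (cd s i k))
  else -40

/-- twice the value of `w - c` at a triple -/
def val2 (c : Fin 9 → ℤ) (a b d : Fin 9) : ℤ := 2 * (wz (cd a b d) : ℤ) - (c a + c b + c d)

/-- the four bases `sij, skl, sik, sjl` lie in a common cell, with `w(sij) + w(skl) = w(sik) + w(sjl)` -/
def Good (s i j k l : Fin 9) : Prop :=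
  (s ≠ i ∧ s ≠ j ∧ s ≠ k ∧ s ≠ l ∧ i ≠ j ∧ i ≠ k ∧ j ≠ l ∧ k ≠ l) ∧
  wz (cd s i j) + wz (cd s k l) = wz (cd s i k) + wz (cd s j l) ∧
  val2 (c2 s i j k l) s k l = val2 (c2 s i j k l) s i j ∧
  val2 (c2 s i j k l) s i k = val2 (c2 s i j k l) s i j ∧
  val2 (c2 s i j k l) s j l = val2 (c2 s i j k l) s i j ∧
  ∀ x y z : Fin 9, x < y → y < z → val2 (c2 s i j k l) s i j ≤ val2 (c2 s i j k l) x y z

instance (s i j k l : Fin 9) : Decidable (Good s i j k l) := by unfold Good; infer_instance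

/-- the subdivision condition: every cell of `w` is contained in a cell of `v` -/
def Refines (w v : Finset (Fin 9) → ℝ) : Prop :=
  ∀ c : Fin 9 → ℝ, ∃ c' : Fin 9 → ℝ,
    {B : Finset (Fin 9) | B.card = 3 ∧ ∀ B' : Finset (Fin 9), B'.card = 3 →
      w B - ∑ i ∈ B, c i ≤ w B' - ∑ i ∈ B', c i} ⊆
    {B : Finset (Fin 9) | B.card = 3 ∧ ∀ B' : Finset (Fin 9), B'.card = 3 →
      v B - ∑ i ∈ B, c' i ≤ v B' - ∑ i ∈ B', c' i}

lemma mem_cell {c : Fin 9 → ℤ} {a b d : Fin 9} (h1 : a ≠ b) (h2 : a ≠ d) (h3 : b ≠ d)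
    (h : ∀ x y z : Fin 9, x < y → y < z → val2 c a b d ≤ val2 c x y z) :
    ({a, b, d} : Finset (Fin 9)) ∈ {B : Finset (Fin 9) | B.card = 3 ∧
      ∀ B' : Finset (Fin 9), B'.card = 3 →
      w B - ∑ i ∈ B, ((c i : ℝ) / 2) ≤ w B' - ∑ i ∈ B', ((c i : ℝ) / 2)} := by
  refine ⟨Finset.card_eq_three.2 ⟨a, b, d, h1, h2, h3, rfl⟩, ?_⟩
  intro B' hB'
  obtain ⟨x, y, z, hxy, hyz, rfl⟩ := exists_sorted hB'
  rw [sum_tri _ h1 h2 h3, sum_tri _ hxy.ne (hxy.trans hyz).ne hyz.ne, w_tri h1 h2 h3,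
    w_tri hxy.ne (hxy.trans hyz).ne hyz.ne]
  have := h x y z hxy hyz
  unfold val2 at this
  have h' : (2 * (wz (cd a b d) : ℝ) - ((c a : ℝ) + c b + c d)) ≤
      2 * (wz (cd x y z) : ℝ) - ((c x : ℝ) + c y + c z) := by exact_mod_cast this
  linarith

lemma four {v : Finset (Fin 9) → ℝ} (H : Refines w v) {s i j k l : Fin 9}
    (hg : Good s i j k l) :
    v {s, i, j} + v {s, k, l} = v {s, i, k} + v {s, j, l} := by
  obtain ⟨⟨h1, h2, h3, h4, h5, h6, h7, h8⟩, -, e1, e2, e3, hm⟩ := hg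
  obtain ⟨c', hc'⟩ := H (fun x => ((c2 s i j k l x : ℤ) : ℝ) / 2)
  have m1 := hc' (mem_cell h1 h2 h5 hm)
  have m2 := hc' (mem_cell (c := c2 s i j k l) h3 h4 h8
    (fun x y z hx hy => by rw [e1]; exact hm x y z hx hy))
  have m3 := hc' (mem_cell (c := c2 s i j k l) h1 h3 h6
    (fun x y z hx hy => by rw [e2]; exact hm x y z hx hy))
  have m4 := hc' (mem_cell (c := c2 s i j k l) h2 h4 h7
    (fun x y z hx hy => by rw [e3]; exact hm x y z hx hy))
  have p12 := m1.2 _ m2.1
  have p21 := m2.2 _ m1.1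
  have p13 := m1.2 _ m3.1
  have p31 := m3.2 _ m1.1
  have p14 := m1.2 _ m4.1
  have p41 := m4.2 _ m1.1
  rw [sum_tri _ h1 h2 h5, sum_tri _ h3 h4 h8] at p12 p21
  rw [sum_tri _ h1 h2 h5, sum_tri _ h1 h3 h6] at p13 p31
  rw [sum_tri _ h1 h2 h5, sum_tri _ h2 h4 h7] at p14 p41
  linarith

/-- the set with bit mask `m` -/
def dec (m : ℕ) : Finset (Fin 9) := Finset.univ.filter fun x => m.testBit x.1 = true

lemma dec_cd : ∀ a b c : Fin 9, a ≠ b → a ≠ c → b ≠ c → dec (cd a b c) = {a, b, c} := by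
  decide +kernel

/-- residual after subtracting a multiple of `w` and a linear functional -/
noncomputable def R (v : Finset (Fin 9) → ℝ) (lam : ℝ) (A : Fin 9 → ℝ) (m : ℕ) : ℝ :=
  v (dec m) - lam * (wz m : ℝ) - ∑ i ∈ dec m, A i

lemma R_tri (v : Finset (Fin 9) → ℝ) (lam : ℝ) (A : Fin 9 → ℝ) {a b c : Fin 9}
    (h1 : a ≠ b) (h2 : a ≠ c) (h3 : b ≠ c) :
    R v lam A (cd a b c) = v {a, b, c} - lam * (wz (cd a b c) : ℝ) - (A a + A b + A c) := by
  unfold R; rw [dec_cd a b c h1 h2 h3, sum_tri _ h1 h2 h3]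

lemma R_four {v : Finset (Fin 9) → ℝ} (H : Refines w v) (lam : ℝ) (A : Fin 9 → ℝ)
    {s i j k l : Fin 9} (hg : Good s i j k l) :
    R v lam A (cd s i j) + R v lam A (cd s k l) = R v lam A (cd s i k) + R v lam A (cd s j l) := by
  have h := four H hg
  obtain ⟨⟨h1, h2, h3, h4, h5, h6, h7, h8⟩, e, -⟩ := hg
  rw [R_tri _ _ _ h1 h2 h5, R_tri _ _ _ h3 h4 h8, R_tri _ _ _ h1 h3 h6, R_tri _ _ _ h2 h4 h7]
  have e' : (wz (cd s i j) : ℝ) + wz (cd s k l) = wz (cd s i k) + wz (cd s j l) := by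
    exact_mod_cast e
  have e'' : lam * (wz (cd s i j) : ℝ) + lam * wz (cd s k l)
      = lam * wz (cd s i k) + lam * wz (cd s j l) := by
    rw [← mul_add, e', mul_add]
  linarith

/-- propagation of zeros -/
def run (known : List ℕ) : List (Fin 9 × Fin 9 × Fin 9 × Fin 9 × Fin 9) → List ℕ
  | [] => known
  | (s, i, j, k, l) :: t =>
    if Good s i j k l ∧ cd s i j ∈ known ∧ cd s k l ∈ known ∧ cd s i k ∈ known then
      run (cd s j l :: known) t
    else run known t

lemma run_sound {v : Finset (Fin 9) → ℝ} (H : Refines w v) (lam : ℝ) (A : Fin 9 → ℝ) :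
    ∀ (t : List (Fin 9 × Fin 9 × Fin 9 × Fin 9 × Fin 9)) (known : List ℕ),
      (∀ m ∈ known, R v lam A m = 0) → ∀ m ∈ run known t, R v lam A m = 0
  | [], known, h => h
  | (s, i, j, k, l) :: t, known, h => by
    unfold run
    split_ifs with hc
    · apply run_sound H lam A t
      intro m hm
      rcases List.mem_cons.1 hm with rfl | hm
      · have := R_four H lam A hc.1
        rw [h _ hc.2.1, h _ hc.2.2.1, h _ hc.2.2.2] at this
        linarith
      · exact h m hm
    · exact run_sound H lam A t known h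

def base : List ℕ := [200, 100, 11, 400, 97, 196, 164, 224, 261, 289]

def steps : List (Fin 9 × Fin 9 × Fin 9 × Fin 9 × Fin 9) :=
  [(5, 2, 7, 6, 0),
    (5, 6, 0, 7, 2),
    (6, 2, 7, 5, 0),
    (6, 0, 5, 7, 3),
    (6, 5, 0, 7, 3),
    (6, 5, 2, 7, 3),
    (7, 5, 0, 6, 2),
    (7, 0, 5, 6, 3),
    (7, 5, 0, 6, 3),
    (7, 5, 2, 6, 3),
    (0, 3, 1, 6, 5),
    (0, 1, 3, 5, 8),
    (0, 5, 2, 6, 3),
    (0, 2, 3, 8, 5),
    (0, 2, 8, 3, 6),
    (0, 2, 8, 3, 7),
    (2, 0, 3, 7, 5),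
    (2, 0, 8, 3, 6),
    (3, 0, 1, 2, 5),
    (3, 0, 1, 2, 6),
    (3, 0, 1, 6, 2),
    (3, 0, 1, 2, 7),
    (5, 0, 1, 3, 2),
    (5, 0, 6, 2, 1),
    (5, 0, 7, 2, 1),
    (6, 3, 0, 5, 1),
    (6, 0, 1, 3, 7),
    (6, 3, 2, 5, 1),
    (7, 0, 2, 5, 1),
    (7, 2, 0, 5, 1),
    (7, 0, 1, 8, 4),
    (7, 0, 2, 8, 4),
    (7, 0, 3, 8, 4),
    (7, 0, 5, 8, 4),
    (7, 0, 6, 8, 4),
    (8, 0, 2, 7, 4),
    (8, 0, 6, 7, 4),
    (0, 3, 1, 5, 2),
    (0, 2, 1, 3, 8),
    (1, 0, 2, 7, 4),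
    (1, 0, 3, 7, 4),
    (1, 0, 5, 7, 4),
    (1, 5, 0, 7, 4),
    (1, 0, 6, 7, 4),
    (2, 0, 3, 1, 4),
    (2, 0, 5, 1, 4),
    (3, 0, 5, 1, 4),
    (3, 1, 0, 5, 4),
    (3, 0, 6, 1, 4),
    (4, 1, 0, 2, 5),
    (4, 1, 0, 2, 7),
    (4, 1, 0, 2, 8),
    (4, 0, 5, 1, 6),
    (4, 0, 1, 7, 8),
    (4, 0, 3, 7, 8),
    (4, 0, 5, 7, 8),
    (5, 0, 1, 4, 8),
    (5, 0, 6, 1, 8),
    (5, 0, 7, 1, 8),
    (5, 0, 2, 4, 8),
    (5, 0, 3, 4, 8),
    (6, 0, 1, 5, 8),
    (6, 0, 7, 1, 8),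
    (6, 5, 0, 8, 2),
    (6, 0, 3, 5, 8),
    (6, 1, 2, 8, 4),
    (7, 0, 1, 4, 8),
    (7, 0, 2, 4, 8),
    (7, 0, 3, 4, 8),
    (8, 0, 2, 4, 1),
    (8, 0, 1, 4, 3),
    (8, 0, 2, 4, 3),
    (0, 1, 4, 2, 6),
    (0, 1, 4, 6, 2)]

lemma run_all : ∀ a b c : Fin 9, a ≠ b → a ≠ c → b ≠ c → cd a b c ∈ run base steps := by
  decide +kernel

/-- the multiple of `w` -/
noncomputable def lamOf (v : Finset (Fin 9) → ℝ) : ℝ := 0 + (1) * v {2, 6, 7} - (1) * v {5, 6, 7} - (1) * v {0, 2, 8} + (1) * v {0, 5, 8}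

/-- the linear functional -/
noncomputable def AOf (v : Finset (Fin 9) → ℝ) : Fin 9 → ℝ := ![0 - (2/3) * v {2, 5, 6} + (1) * v {0, 5, 6} + (4/3) * v {2, 6, 7} + (1/3) * v {2, 5, 7} - (5/3) * v {5, 6, 7} - (1) * v {0, 2, 8} + (1) * v {0, 5, 8},
  0 - (1) * v {3, 6, 7} + (1/3) * v {2, 5, 6} + (1) * v {0, 1, 3} - (1) * v {0, 5, 6} - (2/3) * v {2, 6, 7} - (2/3) * v {2, 5, 7} + (7/3) * v {5, 6, 7} + (1) * v {0, 2, 8} - (1) * v {0, 5, 8},
  0 + (1/3) * v {2, 5, 6} - (2/3) * v {2, 6, 7} + (1/3) * v {2, 5, 7} + (1/3) * v {5, 6, 7} + (1) * v {0, 2, 8} - (1) * v {0, 5, 8},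
  0 + (1) * v {3, 6, 7} + (1/3) * v {2, 5, 6} - (2/3) * v {2, 6, 7} + (1/3) * v {2, 5, 7} - (2/3) * v {5, 6, 7},
  0 + (1/3) * v {2, 5, 6} + (1) * v {4, 7, 8} + (1) * v {0, 5, 6} + (1/3) * v {2, 6, 7} + (1/3) * v {2, 5, 7} - (5/3) * v {5, 6, 7} - (1) * v {0, 2, 8},
  0 + (1/3) * v {2, 5, 6} - (2/3) * v {2, 6, 7} + (1/3) * v {2, 5, 7} + (1/3) * v {5, 6, 7},
  0 + (1/3) * v {2, 5, 6} - (2/3) * v {2, 6, 7} - (2/3) * v {2, 5, 7} + (4/3) * v {5, 6, 7} + (1) * v {0, 2, 8} - (1) * v {0, 5, 8},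
  0 - (2/3) * v {2, 5, 6} - (2/3) * v {2, 6, 7} + (1/3) * v {2, 5, 7} + (4/3) * v {5, 6, 7} + (1) * v {0, 2, 8} - (1) * v {0, 5, 8},
  0 + (1/3) * v {2, 5, 6} - (1) * v {0, 5, 6} - (2/3) * v {2, 6, 7} - (2/3) * v {2, 5, 7} + (4/3) * v {5, 6, 7} + (1) * v {0, 2, 8}]

lemma base_zero (v : Finset (Fin 9) → ℝ) : ∀ m ∈ base, R v (lamOf v) (AOf v) m = 0 := by
  intro m hm
  simp only [base, List.mem_cons, List.not_mem_nil, or_false] at hm
  rcases hm with rfl | rfl | rfl | rfl | rfl | rfl | rfl | rfl | rfl | rfl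
  · rw [show (200 : ℕ) = cd 3 6 7 by decide, R_tri _ _ _ (by decide) (by decide) (by decide),
      show (wz (cd 3 6 7) : ℕ) = 2 by decide +kernel]
    simp only [lamOf, AOf, Matrix.cons_val]
    push_cast
    ring
  · rw [show (100 : ℕ) = cd 2 5 6 by decide, R_tri _ _ _ (by decide) (by decide) (by decide),
      show (wz (cd 2 5 6) : ℕ) = 2 by decide +kernel]
    simp only [lamOf, AOf, Matrix.cons_val]
    push_cast
    ring
  · rw [show (11 : ℕ) = cd 0 1 3 by decide, R_tri _ _ _ (by decide) (by decide) (by decide),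
      show (wz (cd 0 1 3) : ℕ) = 0 by decide +kernel]
    simp only [lamOf, AOf, Matrix.cons_val]
    push_cast
    ring
  · rw [show (400 : ℕ) = cd 4 7 8 by decide, R_tri _ _ _ (by decide) (by decide) (by decide),
      show (wz (cd 4 7 8) : ℕ) = 1 by decide +kernel]
    simp only [lamOf, AOf, Matrix.cons_val]
    push_cast
    ring
  · rw [show (97 : ℕ) = cd 0 5 6 by decide, R_tri _ _ _ (by decide) (by decide) (by decide),
      show (wz (cd 0 5 6) : ℕ) = 0 by decide +kernel]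
    simp only [lamOf, AOf, Matrix.cons_val]
    push_cast
    ring
  · rw [show (196 : ℕ) = cd 2 6 7 by decide, R_tri _ _ _ (by decide) (by decide) (by decide),
      show (wz (cd 2 6 7) : ℕ) = 3 by decide +kernel]
    simp only [lamOf, AOf, Matrix.cons_val]
    push_cast
    ring
  · rw [show (164 : ℕ) = cd 2 5 7 by decide, R_tri _ _ _ (by decide) (by decide) (by decide),
      show (wz (cd 2 5 7) : ℕ) = 2 by decide +kernel]
    simp only [lamOf, AOf, Matrix.cons_val]
    push_cast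
    ring
  · rw [show (224 : ℕ) = cd 5 6 7 by decide, R_tri _ _ _ (by decide) (by decide) (by decide),
      show (wz (cd 5 6 7) : ℕ) = 2 by decide +kernel]
    simp only [lamOf, AOf, Matrix.cons_val]
    push_cast
    ring
  · rw [show (261 : ℕ) = cd 0 2 8 by decide, R_tri _ _ _ (by decide) (by decide) (by decide),
      show (wz (cd 0 2 8) : ℕ) = 0 by decide +kernel]
    simp only [lamOf, AOf, Matrix.cons_val]
    push_cast
    ring
  · rw [show (289 : ℕ) = cd 0 5 8 by decide, R_tri _ _ _ (by decide) (by decide) (by decide),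
      show (wz (cd 0 5 8) : ℕ) = 0 by decide +kernel]
    simp only [lamOf, AOf, Matrix.cons_val]
    push_cast
    ring

lemma key {v : Finset (Fin 9) → ℝ} (H : Refines w v) :
    ∃ (lam : ℝ) (A : Fin 9 → ℝ), ∀ B : Finset (Fin 9), B.card = 3 →
      v B = lam * w B + ∑ i ∈ B, A i := by
  refine ⟨lamOf v, AOf v, ?_⟩
  intro B hB
  obtain ⟨x, y, z, hxy, hyz, rfl⟩ := exists_sorted hB
  have h := run_sound H (lamOf v) (AOf v) steps base (base_zero v) _
    (run_all x y z hxy.ne (hxy.trans hyz).ne hyz.ne)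
  rw [R_tri _ _ _ hxy.ne (hxy.trans hyz).ne hyz.ne] at h
  rw [w_tri hxy.ne (hxy.trans hyz).ne hyz.ne, sum_tri _ hxy.ne (hxy.trans hyz).ne hyz.ne]
  linarith

/-- the three-term Plücker relation -/
def PL (s i j k l : Fin 9) : Prop :=
    ((wz (cd i j s) + wz (cd k l s) = wz (cd i k s) + wz (cd j l s) ∧
      wz (cd i j s) + wz (cd k l s) ≤ wz (cd i l s) + wz (cd j k s)) ∨
    (wz (cd i j s) + wz (cd k l s) = wz (cd i l s) + wz (cd j k s) ∧
      wz (cd i j s) + wz (cd k l s) ≤ wz (cd i k s) + wz (cd j l s)) ∨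
    (wz (cd i k s) + wz (cd j l s) = wz (cd i l s) + wz (cd j k s) ∧
      wz (cd i k s) + wz (cd j l s) ≤ wz (cd i j s) + wz (cd k l s)))

instance (s i j k l : Fin 9) : Decidable (PL s i j k l) := by unfold PL; infer_instance

lemma pl : ∀ s i j k l : Fin 9, (i ≠ s ∧ j ≠ s ∧ k ≠ s ∧ l ≠ s ∧ i ≠ j ∧ i ≠ k ∧ i ≠ l ∧
    j ≠ k ∧ j ≠ l ∧ k ≠ l) → PL s i j k l := by
  decide +kernel

lemma wv1 : w {0, 1, 2} = 0 := by
  rw [w_tri (by decide) (by decide) (by decide), show wz (cd 0 1 2) = 0 by decide +kernel]; simp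
lemma wv2 : w {2, 3, 4} = 1 := by
  rw [w_tri (by decide) (by decide) (by decide), show wz (cd 2 3 4) = 1 by decide +kernel]; simp
lemma wv3 : w {0, 2, 3} = 0 := by
  rw [w_tri (by decide) (by decide) (by decide), show wz (cd 0 2 3) = 0 by decide +kernel]; simp
lemma wv4 : w {1, 2, 4} = 1 := by
  rw [w_tri (by decide) (by decide) (by decide), show wz (cd 1 2 4) = 1 by decide +kernel]; simp
lemma wv5 : w {0, 2, 4} = 2 := by
  rw [w_tri (by decide) (by decide) (by decide), show wz (cd 0 2 4) = 2 by decide +kernel]; simp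
lemma wv6 : w {1, 2, 3} = 2 := by
  rw [w_tri (by decide) (by decide) (by decide), show wz (cd 1 2 3) = 2 by decide +kernel]; simp
lemma wv7 : w {2, 5, 8} = 0 := by
  rw [w_tri (by decide) (by decide) (by decide), show wz (cd 2 5 8) = 0 by decide +kernel]; simp
lemma wv8 : w {0, 2, 8} = 0 := by
  rw [w_tri (by decide) (by decide) (by decide), show wz (cd 0 2 8) = 0 by decide +kernel]; simp
lemma wv9 : w {1, 2, 5} = 1 := by
  rw [w_tri (by decide) (by decide) (by decide), show wz (cd 1 2 5) = 1 by decide +kernel]; simp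

/-- the subdivision induced by `w` is not trivial -/
lemma nontrivial (c : Fin 9 → ℝ) (hc : ∀ B : Finset (Fin 9), B.card = 3 →
    ∀ B' : Finset (Fin 9), B'.card = 3 → w B - ∑ i ∈ B, c i ≤ w B' - ∑ i ∈ B', c i) : False := by
  have h1 := hc {0, 1, 2} (by decide) {0, 2, 8} (by decide)
  have h1' := hc {0, 2, 8} (by decide) {0, 1, 2} (by decide)
  have h2 := hc {1, 2, 5} (by decide) {2, 5, 8} (by decide)
  rw [wv1, wv8, sum_tri _ (by decide) (by decide) (by decide),
    sum_tri _ (by decide) (by decide) (by decide)] at h1 h1'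
  rw [wv9, wv7, sum_tri _ (by decide) (by decide) (by decide),
    sum_tri _ (by decide) (by decide) (by decide)] at h2
  linarith

/-- rank values of a matroid as natural numbers -/
noncomputable def rk (M : Matroid (Fin 9)) (B : Finset (Fin 9)) : ℕ :=
  (M.eRk (B : Set (Fin 9))).toNat

lemma rk_insert_le (M : Matroid (Fin 9)) (a b c d : Fin 9) :
    rk M {a, b, c} ≤ rk M {a, b, d} + 1 := by
  unfold rk
  have hfin : M.eRk (({a, b, d} : Finset (Fin 9)) : Set (Fin 9)) ≠ ⊤ := by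
    apply ne_top_of_le_ne_top _ (M.eRk_le_encard _)
    rw [Set.encard_coe_eq_coe_finsetCard]
    exact ENat.natCast_ne_top _
  have h1 : M.eRk (({a, b, c} : Finset (Fin 9)) : Set (Fin 9)) ≤
      M.eRk (({a, b, d} : Finset (Fin 9)) : Set (Fin 9)) + 1 := by
    refine le_trans (M.eRk_mono (b := insert c (({a, b, d} : Finset (Fin 9)) : Set (Fin 9))) ?_)
      (M.eRk_insert_le_add_one _ _)
    intro x hx
    simp only [Finset.coe_insert, Finset.coe_singleton, Set.mem_insert_iff,
      Set.mem_singleton_iff] at hx ⊢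
    tauto
  have h2 := ENat.toNat_le_toNat h1 (by simp)
  rwa [ENat.toNat_add hfin (by simp)] at h2

lemma trip_eq {X Y : Finset (Fin 9)} (h : X = Y) (f : Finset (Fin 9) → ℝ) : f X = f Y := by rw [h]

/-- Some Dressian Dr(d,n) has a tropical Plücker vector inducing a coarsest nontrivial matroid subdivision (a ray) that differs from the subdivision induced by the corank vector of every rank-d matroid on n elements. -/
theorem result :
    ∃ d n : ℕ, ∃ w : Finset (Fin n) → ℝ,
      (∀ (S : Finset (Fin n)) (i j k l : Fin n), S.card + 2 = d →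
        i ∉ S → j ∉ S → k ∉ S → l ∉ S →
        i ≠ j → i ≠ k → i ≠ l → j ≠ k → j ≠ l → k ≠ l →
        ((w (insert i (insert j S)) + w (insert k (insert l S))
            = w (insert i (insert k S)) + w (insert j (insert l S)) ∧
          w (insert i (insert j S)) + w (insert k (insert l S))
            ≤ w (insert i (insert l S)) + w (insert j (insert k S))) ∨
         (w (insert i (insert j S)) + w (insert k (insert l S))
            = w (insert i (insert l S)) + w (insert j (insert k S)) ∧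
          w (insert i (insert j S)) + w (insert k (insert l S))
            ≤ w (insert i (insert k S)) + w (insert j (insert l S))) ∨
         (w (insert i (insert k S)) + w (insert j (insert l S))
            = w (insert i (insert l S)) + w (insert j (insert k S)) ∧
          w (insert i (insert k S)) + w (insert j (insert l S))
            ≤ w (insert i (insert j S)) + w (insert k (insert l S))))) ∧
      (¬ ∃ c : Fin n → ℝ, ∀ B : Finset (Fin n), B.card = d →
          ∀ B' : Finset (Fin n), B'.card = d →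
            w B - ∑ i ∈ B, c i ≤ w B' - ∑ i ∈ B', c i) ∧
      (∀ v : Finset (Fin n) → ℝ,
        (∀ (S : Finset (Fin n)) (i j k l : Fin n), S.card + 2 = d →
          i ∉ S → j ∉ S → k ∉ S → l ∉ S →
          i ≠ j → i ≠ k → i ≠ l → j ≠ k → j ≠ l → k ≠ l →
          ((v (insert i (insert j S)) + v (insert k (insert l S))
              = v (insert i (insert k S)) + v (insert j (insert l S)) ∧
            v (insert i (insert j S)) + v (insert k (insert l S))
              ≤ v (insert i (insert l S)) + v (insert j (insert k S))) ∨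
           (v (insert i (insert j S)) + v (insert k (insert l S))
              = v (insert i (insert l S)) + v (insert j (insert k S)) ∧
            v (insert i (insert j S)) + v (insert k (insert l S))
              ≤ v (insert i (insert k S)) + v (insert j (insert l S))) ∨
           (v (insert i (insert k S)) + v (insert j (insert l S))
              = v (insert i (insert l S)) + v (insert j (insert k S)) ∧
            v (insert i (insert k S)) + v (insert j (insert l S))
              ≤ v (insert i (insert j S)) + v (insert k (insert l S))))) →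
        (∀ c : Fin n → ℝ, ∃ c' : Fin n → ℝ,
          {B : Finset (Fin n) | B.card = d ∧ ∀ B' : Finset (Fin n), B'.card = d →
              w B - ∑ i ∈ B, c i ≤ w B' - ∑ i ∈ B', c i} ⊆
          {B : Finset (Fin n) | B.card = d ∧ ∀ B' : Finset (Fin n), B'.card = d →
              v B - ∑ i ∈ B, c' i ≤ v B' - ∑ i ∈ B', c' i}) →
        (∃ c : Fin n → ℝ, ∀ B : Finset (Fin n), B.card = d →
          ∀ B' : Finset (Fin n), B'.card = d →
            v B - ∑ i ∈ B, c i ≤ v B' - ∑ i ∈ B', c i) ∨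
        ((∀ c : Fin n → ℝ, ∃ c' : Fin n → ℝ,
          {B : Finset (Fin n) | B.card = d ∧ ∀ B' : Finset (Fin n), B'.card = d →
              w B - ∑ i ∈ B, c i ≤ w B' - ∑ i ∈ B', c i} =
          {B : Finset (Fin n) | B.card = d ∧ ∀ B' : Finset (Fin n), B'.card = d →
              v B - ∑ i ∈ B, c' i ≤ v B' - ∑ i ∈ B', c' i}) ∧
         (∀ c : Fin n → ℝ, ∃ c' : Fin n → ℝ,
          {B : Finset (Fin n) | B.card = d ∧ ∀ B' : Finset (Fin n), B'.card = d →
              v B - ∑ i ∈ B, c i ≤ v B' - ∑ i ∈ B', c i} =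
          {B : Finset (Fin n) | B.card = d ∧ ∀ B' : Finset (Fin n), B'.card = d →
              w B - ∑ i ∈ B, c' i ≤ w B' - ∑ i ∈ B', c' i}))) ∧
      (¬ ∃ M : Matroid (Fin n), M.E = Set.univ ∧ M.eRank = (d : ℕ∞) ∧
        (∀ c : Fin n → ℝ, ∃ c' : Fin n → ℝ,
          {B : Finset (Fin n) | B.card = d ∧ ∀ B' : Finset (Fin n), B'.card = d →
              w B - ∑ i ∈ B, c i ≤ w B' - ∑ i ∈ B', c i} =
          {B : Finset (Fin n) | B.card = d ∧ ∀ B' : Finset (Fin n), B'.card = d →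
              ((d : ℝ) - ((M.eRk (B : Set (Fin n))).toNat : ℝ)) - ∑ i ∈ B, c' i ≤
              ((d : ℝ) - ((M.eRk (B' : Set (Fin n))).toNat : ℝ)) - ∑ i ∈ B', c' i}) ∧
        (∀ c : Fin n → ℝ, ∃ c' : Fin n → ℝ,
          {B : Finset (Fin n) | B.card = d ∧ ∀ B' : Finset (Fin n), B'.card = d →
              ((d : ℝ) - ((M.eRk (B : Set (Fin n))).toNat : ℝ)) - ∑ i ∈ B, c i ≤
              ((d : ℝ) - ((M.eRk (B' : Set (Fin n))).toNat : ℝ)) - ∑ i ∈ B', c i} =
          {B : Finset (Fin n) | B.card = d ∧ ∀ B' : Finset (Fin n), B'.card = d →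
              w B - ∑ i ∈ B, c' i ≤ w B' - ∑ i ∈ B', c' i})) := by
  refine ⟨3, 9, w, ?_, ?_, ?_, ?_⟩
  · intro S i j k l hS hi hj hk hl hij hik hil hjk hjl hkl
    obtain ⟨s, rfl⟩ := Finset.card_eq_one.1 (by omega : S.card = 1)
    rw [Finset.mem_singleton] at hi hj hk hl
    have h := pl s i j k l ⟨hi, hj, hk, hl, hij, hik, hil, hjk, hjl, hkl⟩
    unfold PL at h
    rw [w_tri hij hi hj, w_tri hkl hk hl, w_tri hik hi hk, w_tri hjl hj hl, w_tri hil hi hl,
      w_tri hjk hj hk]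
    exact_mod_cast h
  · rintro ⟨c, hc⟩
    exact nontrivial c hc
  · intro v hv H
    obtain ⟨lam, A, hA⟩ := key H
    have hlam : 0 ≤ lam := by
      have h := hv {2} 0 1 5 8 (by decide) (by decide) (by decide) (by decide) (by decide)
        (by decide) (by decide) (by decide) (by decide) (by decide) (by decide)
      have e1 : v (insert 0 (insert 1 {2})) = A 0 + A 1 + A 2 := by
        rw [show (insert 0 (insert 1 {2}) : Finset (Fin 9)) = {0, 1, 2} by decide, hA _ (by decide),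
          wv1, sum_tri _ (by decide) (by decide) (by decide)]; ring
      have e2 : v (insert 5 (insert 8 {2})) = A 2 + A 5 + A 8 := by
        rw [show (insert 5 (insert 8 {2}) : Finset (Fin 9)) = {2, 5, 8} by decide, hA _ (by decide),
          wv7, sum_tri _ (by decide) (by decide) (by decide)]; ring
      have e3 : v (insert 0 (insert 5 {2})) = A 0 + A 2 + A 5 := by
        rw [show (insert 0 (insert 5 {2}) : Finset (Fin 9)) = {0, 2, 5} by decide, hA _ (by decide),
          w_tri (by decide) (by decide) (by decide), show wz (cd 0 2 5) = 0 by decide +kernel,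
          sum_tri _ (by decide) (by decide) (by decide)]; push_cast; ring
      have e4 : v (insert 1 (insert 8 {2})) = A 1 + A 2 + A 8 := by
        rw [show (insert 1 (insert 8 {2}) : Finset (Fin 9)) = {1, 2, 8} by decide, hA _ (by decide),
          w_tri (by decide) (by decide) (by decide), show wz (cd 1 2 8) = 0 by decide +kernel,
          sum_tri _ (by decide) (by decide) (by decide)]; push_cast; ring
      have e5 : v (insert 0 (insert 8 {2})) = A 0 + A 2 + A 8 := by
        rw [show (insert 0 (insert 8 {2}) : Finset (Fin 9)) = {0, 2, 8} by decide, hA _ (by decide),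
          wv8, sum_tri _ (by decide) (by decide) (by decide)]; ring
      have e6 : v (insert 1 (insert 5 {2})) = lam + A 1 + A 2 + A 5 := by
        rw [show (insert 1 (insert 5 {2}) : Finset (Fin 9)) = {1, 2, 5} by decide, hA _ (by decide),
          wv9, sum_tri _ (by decide) (by decide) (by decide)]; ring
      rw [e1, e2, e3, e4, e5, e6] at h
      rcases h with ⟨_, h⟩ | ⟨h, _⟩ | ⟨h, _⟩ <;> linarith
    rcases hlam.eq_or_lt with h0 | hpos
    · left
      refine ⟨A, fun B hB B' hB' => ?_⟩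
      rw [hA B hB, hA B' hB', ← h0]
      linarith
    · right
      have hval : ∀ B : Finset (Fin 9), B.card = 3 → ∀ c c' : Fin 9 → ℝ,
          (∀ i, c' i = lam * c i + A i) →
          v B - ∑ i ∈ B, c' i = lam * (w B - ∑ i ∈ B, c i) := by
        intro B hB c c' hcc
        rw [hA B hB, Finset.sum_congr rfl (fun i _ => hcc i), Finset.sum_add_distrib,
          ← Finset.mul_sum]
        ring
      have hcell : ∀ c c' : Fin 9 → ℝ, (∀ i, c' i = lam * c i + A i) →
          {B : Finset (Fin 9) | B.card = 3 ∧ ∀ B' : Finset (Fin 9), B'.card = 3 →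
              w B - ∑ i ∈ B, c i ≤ w B' - ∑ i ∈ B', c i} =
          {B : Finset (Fin 9) | B.card = 3 ∧ ∀ B' : Finset (Fin 9), B'.card = 3 →
              v B - ∑ i ∈ B, c' i ≤ v B' - ∑ i ∈ B', c' i} := by
        intro c c' hcc
        ext B
        constructor
        · rintro ⟨hB, h⟩
          refine ⟨hB, fun B' hB' => ?_⟩
          rw [hval B hB c c' hcc, hval B' hB' c c' hcc]
          exact mul_le_mul_of_nonneg_left (h B' hB') hpos.le
        · rintro ⟨hB, h⟩
          refine ⟨hB, fun B' hB' => ?_⟩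
          have := h B' hB'
          rw [hval B hB c c' hcc, hval B' hB' c c' hcc] at this
          exact le_of_mul_le_mul_left this hpos
      refine ⟨fun c => ⟨fun i => lam * c i + A i, hcell c _ (fun i => rfl)⟩,
        fun c => ⟨fun i => (c i - A i) / lam, (hcell _ c (fun i => ?_)).symm⟩⟩
      field_simp
      ring
  · rintro ⟨M, hE, hr, h1, h2⟩
    have H : Refines w (fun B => ((3 : ℕ) : ℝ) - ((M.eRk (B : Set (Fin 9))).toNat : ℝ)) := by
      intro c
      obtain ⟨c', hc'⟩ := h1 c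
      exact ⟨c', hc'.le⟩
    obtain ⟨lam, A, hA⟩ := key H
    have hA' : ∀ B : Finset (Fin 9), B.card = 3 → (3 : ℝ) - (rk M B : ℝ) = lam * w B + ∑ i ∈ B, A i := by
      intro B hB
      have := hA B hB
      simpa [rk] using this
    -- the octahedron with difference 1
    have f1 := hA' {0, 1, 2} (by decide)
    have f2 := hA' {2, 5, 8} (by decide)
    have f3 := hA' {0, 2, 8} (by decide)
    have f4 := hA' {1, 2, 5} (by decide)
    rw [wv1, sum_tri _ (by decide) (by decide) (by decide)] at f1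
    rw [wv7, sum_tri _ (by decide) (by decide) (by decide)] at f2
    rw [wv8, sum_tri _ (by decide) (by decide) (by decide)] at f3
    rw [wv9, sum_tri _ (by decide) (by decide) (by decide)] at f4
    have g1 : lam = (((rk M {0, 1, 2} : ℤ) + rk M {2, 5, 8} - rk M {0, 2, 8} - rk M {1, 2, 5} : ℤ) : ℝ) := by
      push_cast
      linarith
    -- the octahedron with difference 3
    have f5 := hA' {2, 3, 4} (by decide)
    have f6 := hA' {0, 2, 4} (by decide)
    have f7 := hA' {1, 2, 3} (by decide)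
    rw [wv2, sum_tri _ (by decide) (by decide) (by decide)] at f5
    rw [wv5, sum_tri _ (by decide) (by decide) (by decide)] at f6
    rw [wv6, sum_tri _ (by decide) (by decide) (by decide)] at f7
    have g2 : 3 * lam = (((rk M {0, 1, 2} : ℤ) + rk M {2, 3, 4} - rk M {0, 2, 4} - rk M {1, 2, 3} : ℤ) : ℝ) := by
      push_cast
      linarith
    have hlam : lam = 0 := by
      rw [g1] at g2
      have g3 : 3 * ((rk M {0, 1, 2} : ℤ) + rk M {2, 5, 8} - rk M {0, 2, 8} - rk M {1, 2, 5}) =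
          ((rk M {0, 1, 2} : ℤ) + rk M {2, 3, 4} - rk M {0, 2, 4} - rk M {1, 2, 3}) := by
        exact_mod_cast g2
      have b1 := rk_insert_le M 0 2 1 4
      have b2 := rk_insert_le M 0 2 4 1
      have b3 := rk_insert_le M 2 3 4 1
      have b4 := rk_insert_le M 2 3 1 4
      rw [show ({0, 2, 1} : Finset (Fin 9)) = {0, 1, 2} by decide] at b1 b2
      rw [show ({2, 3, 1} : Finset (Fin 9)) = {1, 2, 3} by decide] at b3 b4
      have : ((rk M {0, 1, 2} : ℤ) + rk M {2, 5, 8} - rk M {0, 2, 8} - rk M {1, 2, 5}) = 0 := by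
        omega
      rw [g1, this]
      simp
    -- so the corank vector of `M` induces the trivial subdivision
    obtain ⟨c', hc'⟩ := h2 A
    apply nontrivial c'
    intro B hB B' hB'
    have hmem : B ∈ {B : Finset (Fin 9) | B.card = 3 ∧ ∀ B' : Finset (Fin 9), B'.card = 3 →
              (((3 : ℕ) : ℝ) - ((M.eRk (B : Set (Fin 9))).toNat : ℝ)) - ∑ i ∈ B, A i ≤
              (((3 : ℕ) : ℝ) - ((M.eRk (B' : Set (Fin 9))).toNat : ℝ)) - ∑ i ∈ B', A i} := by
      refine ⟨hB, fun B' hB' => ?_⟩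
      have e1 := hA B hB
      have e2 := hA B' hB'
      simp only [hlam, zero_mul, zero_add] at e1 e2
      rw [e1, e2]
      simp
    rw [hc'] at hmem
    exact hmem.2 B' hB'

end Pool.Agent.S07891
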