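import Pool.Statements.S07942
import Pool.Agent.R50.OddCycle
-- import your own Pool.Agent.* helpers here

set_option autoImplicit false
open Pool Pool.MP_30ed83_co

namespace Pool.Agent.S07942

open SimpleGraph Pool.Agent.R50.OddCycle

/-- The claw: the centre `0` is joined to `1`, `2`, `3`. -/
def claw : SimpleGraph (Fin 4) := SimpleGraph.fromRel (fun a b => a = 0 ∧ b ≠ 0)

lemma claw_adj (a b : Fin 4) : claw.Adj a b ↔ (a = 0 ∧ b ≠ 0) ∨ (b = 0 ∧ a ≠ 0) := by
  unfold claw
  rw [SimpleGraph.fromRel_adj]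
  constructor
  · rintro ⟨_, h | h⟩
    · exact Or.inl h
    · exact Or.inr h
  · rintro (⟨h1, h2⟩ | ⟨h1, h2⟩)
    · exact ⟨fun h => h2 (h ▸ h1), Or.inl ⟨h1, h2⟩⟩
    · exact ⟨fun h => h2 (h ▸ h1), Or.inr ⟨h1, h2⟩⟩

lemma claw_colorable : claw.Colorable 2 := by
  refine ⟨Coloring.mk (fun a => if a = 0 then 0 else 1) ?_⟩
  intro a b hab
  rw [claw_adj] at hab
  rcases hab with ⟨h1, h2⟩ | ⟨h1, h2⟩
  · simp [h1, h2]
  · simp [h1, h2]

/-- The negation of the preceding statement: For every finite graph F with an edge and every r, some finite graph G has chromatic number above r and clique number equal to F's, and every induced subgraph of G with no induced copy of F has chromatic number at most that of F. -/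
theorem result :
    ¬ (∀ (n : ℕ) (F : SimpleGraph (Fin n)), F ≠ ⊥ →
      ∀ r : ℕ, ∃ (m : ℕ) (G : SimpleGraph (Fin m)),
        (r : ℕ∞) < G.chromaticNumber ∧
        G.cliqueNum = F.cliqueNum ∧
        ∀ s : Set (Fin m), ¬ F.IsIndContained (G.induce s) →
          (G.induce s).chromaticNumber ≤ F.chromaticNumber) := by
  classical
  intro h
  have hne : claw ≠ ⊥ := by
    intro h0
    have h1 : claw.Adj 0 1 := by rw [claw_adj]; exact Or.inl ⟨rfl, by decide⟩
    rw [h0] at h1
    exact h1
  have hchi : claw.chromaticNumber ≤ 2 := chromaticNumber_le_iff_colorable.2 claw_colorable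
  obtain ⟨m, G, hG, -, hs⟩ := h 4 claw hne 2
  have hG2 : ¬ G.Colorable 2 := by
    intro hc
    exact absurd hc.chromaticNumber_le (not_le.2 hG)
  obtain ⟨l, hodd, hl3, f, hf, hinj, hch⟩ := exists_induced_odd_cycle hG2
  let s : Set (Fin m) := {v | ∃ i < l, f i = v}
  have hmem : ∀ i ≤ l, f i ∈ s := by
    intro i hi
    rcases Nat.lt_or_ge i l with h1 | h1
    · exact ⟨i, h1, rfl⟩
    · have h2 : i = l := le_antisymm hi h1
      subst h2
      exact ⟨0, by omega, hf.1⟩
  refine not_colorable_of_closed hodd hf hmem ?_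
  refine chromaticNumber_le_iff_colorable.1 ((hs s ?_).trans hchi)
  rintro ⟨e⟩
  -- the positions of the images of the four vertices of the claw in the induced cycle
  have hpos : ∀ v : Fin 4, ∃ i < l, f i = (e v : Fin m) := fun v => (e v).2
  choose g hg1 hg2 using hpos
  have hginj : ∀ u v : Fin 4, g u = g v → u = v := by
    intro u v huv
    apply e.injective
    apply Subtype.ext
    rw [← hg2 u, ← hg2 v, huv]
  have hadj : ∀ v : Fin 4, v ≠ 0 → (g 0 + 1 = g v ∨ g v + 1 = g 0 ∨ (g 0 = 0 ∧ g v + 1 = l) ∨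
      (g v = 0 ∧ g 0 + 1 = l)) := by
    intro v hv
    apply hch _ (hg1 0) _ (hg1 v)
    rw [hg2, hg2]
    have h1 : (G.induce s).Adj (e 0) (e v) := by
      rw [e.map_rel_iff, claw_adj]
      exact Or.inl ⟨rfl, hv⟩
    exact h1
  have h1 := hadj 1 (by decide)
  have h2 := hadj 2 (by decide)
  have h3 := hadj 3 (by decide)
  have h12 : g 1 ≠ g 2 := fun h => absurd (hginj _ _ h) (by decide)
  have h13 : g 1 ≠ g 3 := fun h => absurd (hginj _ _ h) (by decide)
  have h23 : g 2 ≠ g 3 := fun h => absurd (hginj _ _ h) (by decide)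
  have k0 := hg1 0
  have k1 := hg1 1
  have k2 := hg1 2
  have k3 := hg1 3
  omega

end Pool.Agent.S07942
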