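import Pool.Statements.S10311
import Pool.Agent.H176R2.R5.FN
import Pool.Agent.H176R2.R5.OR

set_option autoImplicit false
open Pool Pool.MP_98a5df_co

namespace Pool.Agent.S10311

/-- Every finite 5-regular graph in which each set of k≥3 vertices spans at most 3k−6 edges has a placement in R^3 whose rigidity matrix has linearly independent rows. -/
theorem result :
    ∀ (n : ℕ) (G : SimpleGraph (Fin n)) [DecidableRel G.Adj],
      G.IsRegularOfDegree 5 →
      (∀ S : Finset (Fin n), 3 ≤ S.card →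
        (Finset.univ.filter (fun e : Fin n × Fin n =>
          e.1 ∈ S ∧ e.2 ∈ S ∧ e.1 < e.2 ∧ G.Adj e.1 e.2)).card ≤ 3 * S.card - 6) →
      ∃ p : Fin n → Fin 3 → ℝ,
        LinearIndependent ℝ
          (fun e : {e : Fin n × Fin n // e.1 < e.2 ∧ G.Adj e.1 e.2} =>
            (fun (w : Fin n) (i : Fin 3) =>
              if w = e.val.1 then p e.val.1 i - p e.val.2 i
              else if w = e.val.2 then p e.val.2 i - p e.val.1 i
              else 0)) := by
  classical
  intro n G _ hreg hsp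
  obtain ⟨p, hp⟩ := H176R2.R5.exists_generic (Fin n)
  refine ⟨p, ?_⟩
  set I : Set (Fin n × Fin n) := {e | e.1 < e.2 ∧ G.Adj e.1 e.2} with hI
  have hlt : ∀ e ∈ I, e.1 < e.2 := fun e he => he.1
  have hgr : H176R2.R5.OR.gr I = G := by
    ext a b
    simp only [H176R2.R5.OR.gr, hI, Set.mem_ofPred_eq]
    constructor
    · rintro ⟨-, ⟨-, h⟩ | ⟨-, h⟩⟩
      · exact h
      · exact h.symm
    · intro h
      refine ⟨h.ne, ?_⟩
      rcases lt_or_gt_of_ne h.ne with h1 | h1
      · exact Or.inl ⟨h1, h⟩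
      · exact Or.inr ⟨h1, h.symm⟩
  have hS : H176R2.R5.Sparse G := by
    intro X hX
    have h1 := hsp X hX
    have h2 : H176R2.R5.i2 G X = 2 * (Finset.univ.filter (fun e : Fin n × Fin n =>
          e.1 ∈ X ∧ e.2 ∈ X ∧ e.1 < e.2 ∧ G.Adj e.1 e.2)).card := by
      have h3 : H176R2.R5.i2 G X = (Finset.univ.filter (fun e : Fin n × Fin n =>
          e.1 ∈ X ∧ e.2 ∈ X ∧ G.Adj e.1 e.2)).card := by
        unfold H176R2.R5.i2 H176R2.R5.dg
        rw [← Finset.card_sigma]
        apply Finset.card_bij (fun x _ => (x.1, x.2))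
        · rintro ⟨a, b⟩ h
          simp only [Finset.mem_sigma, Finset.mem_filter, Finset.mem_univ, true_and] at h ⊢
          exact ⟨h.1, h.2.1, h.2.2⟩
        · rintro ⟨a, b⟩ _ ⟨a', b'⟩ _ h
          simp only [Prod.mk.injEq] at h
          obtain ⟨rfl, rfl⟩ := h
          rfl
        · rintro ⟨a, b⟩ h
          simp only [Finset.mem_filter, Finset.mem_univ, true_and] at h
          refine ⟨⟨a, b⟩, ?_, rfl⟩
          simp only [Finset.mem_sigma, Finset.mem_filter]
          exact ⟨h.1, h.2.1, h.2.2⟩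
      have h4 : (Finset.univ.filter (fun e : Fin n × Fin n =>
          e.1 ∈ X ∧ e.2 ∈ X ∧ G.Adj e.1 e.2)) =
          (Finset.univ.filter (fun e : Fin n × Fin n =>
            e.1 ∈ X ∧ e.2 ∈ X ∧ e.1 < e.2 ∧ G.Adj e.1 e.2)) ∪
          (Finset.univ.filter (fun e : Fin n × Fin n =>
            e.1 ∈ X ∧ e.2 ∈ X ∧ e.2 < e.1 ∧ G.Adj e.1 e.2)) := by
        ext ⟨a, b⟩
        simp only [Finset.mem_filter, Finset.mem_univ, true_and, Finset.mem_union]
        constructor
        · rintro ⟨h5, h6, h7⟩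
          rcases lt_or_gt_of_ne h7.ne with h8 | h8
          · exact Or.inl ⟨h5, h6, h8, h7⟩
          · exact Or.inr ⟨h5, h6, h8, h7⟩
        · rintro (⟨h5, h6, -, h7⟩ | ⟨h5, h6, -, h7⟩)
          · exact ⟨h5, h6, h7⟩
          · exact ⟨h5, h6, h7⟩
      have h5 : (Finset.univ.filter (fun e : Fin n × Fin n =>
            e.1 ∈ X ∧ e.2 ∈ X ∧ e.2 < e.1 ∧ G.Adj e.1 e.2)).card =
          (Finset.univ.filter (fun e : Fin n × Fin n =>
            e.1 ∈ X ∧ e.2 ∈ X ∧ e.1 < e.2 ∧ G.Adj e.1 e.2)).card := by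
        apply Finset.card_bij (fun x _ => (x.2, x.1))
        · rintro ⟨a, b⟩ h
          simp only [Finset.mem_filter, Finset.mem_univ, true_and] at h ⊢
          exact ⟨h.2.1, h.1, h.2.2.1, h.2.2.2.symm⟩
        · rintro ⟨a, b⟩ _ ⟨a', b'⟩ _ h
          simp only [Prod.mk.injEq] at h
          obtain ⟨rfl, rfl⟩ := h
          rfl
        · rintro ⟨a, b⟩ h
          simp only [Finset.mem_filter, Finset.mem_univ, true_and] at h
          refine ⟨(b, a), ?_, rfl⟩
          simp only [Finset.mem_filter, Finset.mem_univ, true_and]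
          exact ⟨h.2.1, h.1, h.2.2.1, h.2.2.2.symm⟩
      rw [h3, h4, Finset.card_union_of_disjoint, h5, two_mul]
      rw [Finset.disjoint_left]
      rintro ⟨a, b⟩ h6 h7
      simp only [Finset.mem_filter, Finset.mem_univ, true_and] at h6 h7
      exact lt_asymm h6.2.2.1 h7.2.2.1
    omega
  have hd : ∀ a, H176R2.R5.dg G Finset.univ a ≤ 5 := by
    intro a
    unfold H176R2.R5.dg
    have h1 := hreg a
    rw [← SimpleGraph.card_neighborFinset_eq_degree] at h1
    rw [← h1]
    apply le_of_eq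
    congr 1
    ext x
    simp
  have hind : H176R2.R5.Ind p G := H176R2.R5.main hp hS hd
  have h1 := (H176R2.R5.OR.ind_iff hlt p
    (fun (e : I) (w : Fin n) (i : Fin 3) =>
      if w = e.val.1 then p e.val.1 i - p e.val.2 i
      else if w = e.val.2 then p e.val.2 i - p e.val.1 i
      else 0) (fun e v k => rfl)).2 (by rw [hgr]; exact hind)
  exact h1

end Pool.Agent.S10311
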