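import Pool.Statements.S13341
-- import your own Pool.Agent.* helpers here
import Pool.Agent.Helper381.Main
import Pool.Agent.Helper381.Riem3
import Pool.Agent.HZ69.Sym
import Pool.Agent.HZ69.Dim
import Pool.Agent.HZ69.Tor

set_option autoImplicit false
open Bundle
open scoped Manifold ContDiff
open Pool Pool.MP_6d5819_gt

namespace Pool.Agent.S13341

section Aux

open Pool.Agent.Helper381 Pool.Agent.TH592.Nag Pool.Agent.HZ69 Module

/-- the metric and homological core: real homology of a compact manifold of dimension `d` bounds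
the size of antipodal sets if there is no element of order two in integral homology -/
theorem core {E : Type} [NormedAddCommGroup E] [NormedSpace ℝ E] {R : ℝ} (d : ℕ) (M : Type)
    [MetricSpace M] [CompactSpace M] [PreconnectedSpace M] [Nonempty M]
    (G : Geo M E R) (hcol : Pool.Agent.R292.CovDim.Col (Set.univ : Set M) d)
    (h2 : ∀ n, ∀ g : Hm ℤ M n, (2 : ℤ) • g = 0 → g = 0)
    (A : Finset M) (hA : IsAntipodal (A : Set M)) :
    A.card ≤ ∑ i ∈ Finset.range (d + 1), finrank ℝ (Hm ℝ M i) := by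
  classical
  have h1 := G.card_le A hA
  obtain ⟨a1, N1, b1⟩ := G.betti_finite (ZMod 2)
  obtain ⟨a2, N2, b2⟩ := G.betti_finite ℝ
  have hfin2 : ∀ n, Module.Finite (ZMod 2) (Hm (ZMod 2) M n) := fun n =>
    homology_finite (ZMod 2) M n (a1 n)
  have hfinR : ∀ n, Module.Finite ℝ (Hm ℝ M n) := fun n => homology_finite ℝ M n (a2 n)
  have hle : ∀ n, finrank (ZMod 2) (SingCoh (ZMod 2) M n) ≤ finrank ℝ (Hm ℝ M n) := by
    intro n
    rw [← homology_finrank]
    have := hfin2 n
    have := hfinR n
    exact finrank_two_le M h2 n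
  -- vanishing above the dimension
  have hvan : ∀ n, d + 1 ≤ n → finrank ℝ (Hm ℝ M n) = 0 := by
    intro n hn
    obtain ⟨m, rfl⟩ : ∃ m, n = m + 1 := ⟨n - 1, by omega⟩
    rw [homology_finrank]
    have hsub : Subsingleton (SingCoh ℝ M (m + 1)) := by
      refine subsingleton_of_forall_eq 0 ?_
      intro c
      obtain ⟨⟨f, hf⟩, rfl⟩ := Submodule.Quotient.mk_surjective _ c
      rw [Submodule.Quotient.mk_eq_zero]
      obtain ⟨g, hg⟩ := geo_vanish G hcol m (by omega) f hf
      exact ⟨g, hg⟩
    exact Module.finrank_zero_of_subsingleton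
  set N := max (max N1 N2) (d + 1) with hN
  rw [totalBetti_eq N a1 (fun n hn => b1 n (le_trans (by simp [hN]) hn)), Nat.cast_le] at h1
  calc A.card ≤ ∑ n ∈ Finset.range N, finrank (ZMod 2) (SingCoh (ZMod 2) M n) := h1
    _ ≤ ∑ n ∈ Finset.range N, finrank ℝ (Hm ℝ M n) := Finset.sum_le_sum fun n _ => hle n
    _ = ∑ n ∈ Finset.range (d + 1), finrank ℝ (Hm ℝ M n) := by
        symm
        apply Finset.sum_subset
        · exact Finset.range_mono (le_max_right _ _)
        · intro n _ hn
          rw [Finset.mem_range, not_lt] at hn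
          exact hvan n hn

/-- on a connected space extended distances are finite -/
theorem edist_ne_top {M : Type} [EMetricSpace M] [ConnectedSpace M] (x y : M) :
    edist x y ≠ ⊤ := by
  have hcl : IsClopen {z : M | edist x z < ⊤} := by
    constructor
    · rw [← isOpen_compl_iff, EMetric.isOpen_iff]
      intro z hz
      refine ⟨1, one_pos, fun w hw hxw => hz ?_⟩
      have h1 : edist w z < 1 := hw
      have h2 : edist x w < ⊤ := hxw
      exact lt_of_le_of_lt (edist_triangle x w z)
        (ENNReal.add_lt_top.mpr ⟨h2, h1.trans ENNReal.one_lt_top⟩)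
    · rw [EMetric.isOpen_iff]
      intro z hz
      refine ⟨1, one_pos, fun w hw => ?_⟩
      have h1 : edist w z < 1 := hw
      have h2 : edist x z < ⊤ := hz
      rw [edist_comm] at h1
      exact lt_of_le_of_lt (edist_triangle x z w)
        (ENNReal.add_lt_top.mpr ⟨h2, h1.trans ENNReal.one_lt_top⟩)
  have h3 := hcl.eq_univ ⟨x, by simp⟩
  have h4 : y ∈ {z : M | edist x z < ⊤} := by rw [h3]; trivial
  exact ne_of_lt h4

theorem exists_metric {M : Type} [inst : EMetricSpace M] [ConnectedSpace M] :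
    ∃ m : MetricSpace M, (@MetricSpace.toEMetricSpace M m) = inst :=
  ⟨EMetricSpace.toMetricSpace edist_ne_top, rfl⟩

end Aux

/-- For every compact simply connected Riemannian manifold whose points all have isometric symmetries with differential minus identity, if some antipodal finite set is larger than the total real Betti number, then some integral homology group has an element of order 2. -/
theorem result :
  ∀ (d : ℕ) (M : Type) [EMetricSpace M]
    [ChartedSpace (EuclideanSpace ℝ (Fin d)) M]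
    [IsManifold (𝓡 d) ∞ M]
    [RiemannianBundle (fun x : M ↦ TangentSpace (𝓡 d) x)]
    [IsContMDiffRiemannianBundle (𝓡 d) ∞ (EuclideanSpace ℝ (Fin d))
      (fun x : M ↦ TangentSpace (𝓡 d) x)]
    [IsRiemannianManifold (𝓡 d) M]
    [CompactSpace M] [SimplyConnectedSpace M]
    (s : M → M → M),
    (∀ x : M, Isometry (s x) ∧ s x x = x ∧
      mfderiv (𝓡 d) (𝓡 d) (s x) x = -ContinuousLinearMap.id ℝ (EuclideanSpace ℝ (Fin d))) →
    (∃ A : Finset M, (∀ x ∈ A, ∀ y ∈ A, s x y = y) ∧
      (∑ i ∈ Finset.range (d + 1),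
        Module.finrank ℝ
          ((((AlgebraicTopology.singularHomologyFunctor (ModuleCat.{0} ℝ) i).obj
            (ModuleCat.of ℝ ℝ)).obj (TopCat.of M) : ModuleCat.{0} ℝ) : Type)) < A.card) →
    ∃ i : ℕ, ∃ g : ((((AlgebraicTopology.singularHomologyFunctor (ModuleCat.{0} ℤ) i).obj
            (ModuleCat.of ℤ ℤ)).obj (TopCat.of M) : ModuleCat.{0} ℤ) : Type),
      addOrderOf g = 2 := by
  intro d M inst _ _ _ _ _ _ _ s hs hA
  obtain ⟨m, rfl⟩ := exists_metric (M := M)
  obtain ⟨A, hA1, hA2⟩ := hA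
  obtain ⟨R, G⟩ := Pool.Agent.Helper381.riemannian_geo (E := EuclideanSpace ℝ (Fin d)) (M := M)
  by_contra hcon
  push Not at hcon
  have h2 : ∀ n, ∀ g : Pool.Agent.TH592.Nag.Hm ℤ M n, (2 : ℤ) • g = 0 → g = 0 := by
    intro n g hg
    by_contra hne
    have hp : Fact (Nat.Prime 2) := ⟨Nat.prime_two⟩
    obtain ⟨e⟩ := Pool.Agent.TH592.Nag.bridge ℤ M n
    have hc' : (2 : ℕ) • e.symm g = 0 := by
      rw [← natCast_zsmul, ← map_zsmul, Nat.cast_ofNat, hg, map_zero]
    exact hcon n (e.symm g) (addOrderOf_eq_prime hc' (by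
      rw [Ne, LinearEquiv.map_eq_zero_iff]; exact hne))
  have hanti : Pool.Agent.Helper381.IsAntipodal (A : Set M) := by
    intro x hx y hy
    obtain ⟨h3, h4, h5⟩ := hs x
    obtain ⟨g, hg, hsym⟩ := Pool.Agent.HZ69.isSymmetryAt_of x (s x) h3 h4 h5
    exact ⟨g, hsym, by rw [hg]; exact hA1 x hx y hy⟩
  have h6 := core d M G (Pool.Agent.HZ69.col_manifold) h2 A hanti
  have h7 : ∀ i, Module.finrank ℝ
          ((((AlgebraicTopology.singularHomologyFunctor (ModuleCat.{0} ℝ) i).obj
            (ModuleCat.of ℝ ℝ)).obj (TopCat.of M) : ModuleCat.{0} ℝ) : Type) =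
      Module.finrank ℝ (Pool.Agent.TH592.Nag.Hm ℝ M i) := by
    intro i
    obtain ⟨e⟩ := Pool.Agent.TH592.Nag.bridge ℝ M i
    exact e.finrank_eq
  simp only [h7] at hA2
  exact absurd h6 (not_le.mpr hA2)

end Pool.Agent.S13341
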