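import Pool.Statements.S15186
import Pool.Agent.Results.MP_a8f5d0_lc.LogSupply

set_option autoImplicit false
open Pool Pool.MP_a8f5d0_lc Pool.Agent.Helper555.JDP

namespace Pool.Agent.S15186

/-- The negation of the preceding statement: For each ε,α,β in (0,1) there is a supply s such that for all n, m and supplies ≥ s, some ε-jointly private mechanism on [0,1]-valued gross-substitute profiles always outputs feasible allocations with welfare ≥ OPT − αn with probability ≥ 1−β. -/
theorem result :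
    ¬ (∀ ε α β : ℝ, 0 < ε → ε < 1 → 0 < α → α < 1 → 0 < β → β < 1 →
  ∃ s : ℕ, ∀ n m : ℕ, ∀ supply : Fin m → ℕ, (∀ j, s ≤ supply j) →
  ∃ M : (Fin n → Finset (Fin m) → ℝ) → PMF (Fin n → Finset (Fin m)),
    (∀ v : Fin n → Finset (Fin m) → ℝ,
      (∀ i, (∀ S, 0 ≤ v i S ∧ v i S ≤ 1) ∧
        ∀ p q : Fin m → ℝ, p ≤ q → ∀ S : Finset (Fin m),
          (∀ T : Finset (Fin m), v i T - ∑ j ∈ T, p j ≤ v i S - ∑ j ∈ S, p j) →
          ∃ T : Finset (Fin m),
            (∀ U : Finset (Fin m), v i U - ∑ j ∈ U, q j ≤ v i T - ∑ j ∈ T, q j) ∧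
            ∀ j ∈ S, q j = p j → j ∈ T) →
      (∀ ω ∈ (M v).support, ∀ j : Fin m,
          (Finset.univ.filter (fun k : Fin n => j ∈ ω k)).card ≤ supply j) ∧
      (M v).toOuterMeasure {ω | ∀ ω' : Fin n → Finset (Fin m),
          (∀ j : Fin m, (Finset.univ.filter (fun k : Fin n => j ∈ ω' k)).card ≤ supply j) →
          ∑ k, v k (ω' k) - α * (n : ℝ) ≤ ∑ k, v k (ω k)} ≥ ENNReal.ofReal (1 - β)) ∧
    (∀ v : Fin n → Finset (Fin m) → ℝ,
      (∀ i, (∀ S, 0 ≤ v i S ∧ v i S ≤ 1) ∧
        ∀ p q : Fin m → ℝ, p ≤ q → ∀ S : Finset (Fin m),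
          (∀ T : Finset (Fin m), v i T - ∑ j ∈ T, p j ≤ v i S - ∑ j ∈ S, p j) →
          ∃ T : Finset (Fin m),
            (∀ U : Finset (Fin m), v i U - ∑ j ∈ U, q j ≤ v i T - ∑ j ∈ T, q j) ∧
            ∀ j ∈ S, q j = p j → j ∈ T) →
      ∀ (i : Fin n) (w : Finset (Fin m) → ℝ),
      ((∀ S, 0 ≤ w S ∧ w S ≤ 1) ∧
        ∀ p q : Fin m → ℝ, p ≤ q → ∀ S : Finset (Fin m),
          (∀ T : Finset (Fin m), w T - ∑ j ∈ T, p j ≤ w S - ∑ j ∈ S, p j) →
          ∃ T : Finset (Fin m),
            (∀ U : Finset (Fin m), w U - ∑ j ∈ U, q j ≤ w T - ∑ j ∈ T, q j) ∧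
            ∀ j ∈ S, q j = p j → j ∈ T) →
      ∀ S : Set ({k : Fin n // k ≠ i} → Finset (Fin m)),
        (M v).toOuterMeasure {ω | (fun k : {k : Fin n // k ≠ i} => ω k.1) ∈ S} ≤
          ENNReal.ofReal (Real.exp ε) *
            (M (Function.update v i w)).toOuterMeasure
              {ω | (fun k : {k : Fin n // k ≠ i} => ω k.1) ∈ S})) := by
  intro H
  obtain ⟨s, hs⟩ := H (1 / 2) (1 / 1000) (1 / 2) (by norm_num) (by norm_num) (by norm_num)
    (by norm_num) (by norm_num) (by norm_num)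
  -- every supply above `s` suffices, in the sense of `Pool.Agent.Helper555.JDP`
  have hsuff : ∀ n m : ℕ, Suffices GrossSubstitutes n m (1 / 2) (1 / 1000) (1 / 2) s := by
    intro n m
    choose M hM1 hM2 using hs n m
    refine ⟨fun sup v => if h : ∀ j, s ≤ sup j then M sup h v else PMF.pure fun _ => ∅, ?_⟩
    intro sup hsup
    refine ⟨?_, ?_⟩
    · intro i v w hv hw S
      simp only [dif_pos hsup]
      have h := hM2 sup hsup v (fun k => ⟨(hv k).1, fun p q hpq S hS =>
        (hv k).2 p q hpq S hS⟩) i w ⟨hw.1, fun p q hpq S hS => hw.2 p q hpq S hS⟩ S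
      unfold Pr
      have h3 := ENNReal.toReal_mono (ENNReal.mul_ne_top ENNReal.ofReal_ne_top
        (ne_top_of_le_ne_top ENNReal.one_ne_top
          (by
            rw [PMF.toOuterMeasure_apply_fintype]
            have h4 := (M sup hsup (Function.update v i w)).tsum_coe
            rw [tsum_fintype] at h4
            rw [← h4]
            refine Finset.sum_le_sum fun x _ => ?_
            exact Set.indicator_le_self' (fun _ _ => zero_le) x))) h
      rw [ENNReal.toReal_mul, ENNReal.toReal_ofReal (Real.exp_pos _).le] at h3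
      exact h3
    · intro v hv
      simp only [dif_pos hsup]
      obtain ⟨h1, h2⟩ := hM1 sup hsup v (fun k => ⟨(hv k).1, fun p q hpq S hS =>
        (hv k).2 p q hpq S hS⟩)
      refine ⟨fun ω hω => ?_, ?_⟩
      · intro j
        exact h1 ω hω j
      · have h3 : (M sup hsup v).toOuterMeasure {ω | ∀ ω' : Fin n → Finset (Fin m),
            (∀ j : Fin m, (Finset.univ.filter (fun k : Fin n => j ∈ ω' k)).card ≤ sup j) →
            ∑ k, v k (ω' k) - 1 / 1000 * (n : ℝ) ≤ ∑ k, v k (ω k)} ≤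
            (M sup hsup v).toOuterMeasure {ω | OPT sup v - 1 / 1000 * n ≤ welfare v ω} := by
          refine MeasureTheory.measure_mono ?_
          intro ω hω
          have h4 : OPT sup v ≤ welfare v ω + 1 / 1000 * n := by
            refine OPT_le sup v _ fun ω' hω' => ?_
            have := hω ω' hω'
            unfold welfare
            linarith
          show OPT sup v - 1 / 1000 * n ≤ welfare v ω
          linarith
        have h5 : ENNReal.ofReal (1 - 1 / 2) ≤
            (M sup hsup v).toOuterMeasure {ω | OPT sup v - 1 / 1000 * n ≤ welfare v ω} :=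
          le_trans h2 h3
        have h6 : (M sup hsup v).toOuterMeasure
            {ω | OPT sup v - 1 / 1000 * n ≤ welfare v ω} ≠ ⊤ := by
          refine ne_top_of_le_ne_top ENNReal.one_ne_top ?_
          rw [PMF.toOuterMeasure_apply_fintype]
          have h4 := (M sup hsup v).tsum_coe
          rw [tsum_fintype] at h4
          rw [← h4]
          refine Finset.sum_le_sum fun x _ => ?_
          exact Set.indicator_le_self' (fun _ _ => zero_le) x
        unfold Pr
        exact (ENNReal.ofReal_le_iff_le_toReal h6).mp h5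
  obtain ⟨m₀, hm₀⟩ := (Pool.Agent.Results.MP_a8f5d0_lc.LogSupply.result (1 / 2) (1 / 1000) (1 / 2)
    (by norm_num) (by norm_num) (by norm_num) le_rfl (by norm_num) (by norm_num)).2
  have hev : ∀ᶠ m : ℕ in Filter.atTop, (s : ℝ) < Real.log m :=
    (Real.tendsto_log_atTop.comp tendsto_natCast_atTop_atTop).eventually_gt_atTop (s : ℝ)
  obtain ⟨m₁, hm₁⟩ := Filter.eventually_atTop.mp hev
  obtain ⟨n, -, h1, h2⟩ := hm₀ (max m₀ m₁) (le_max_left _ _)
  have h3 := hm₁ (max m₀ m₁) (le_max_right _ _)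
  have h4 : sStar GrossSubstitutes n (max m₀ m₁) (1 / 2) (1 / 1000) (1 / 2) ≤ s :=
    Nat.sInf_le (hsuff n (max m₀ m₁))
  have h5 : ((sStarWeak GrossSubstitutes n (max m₀ m₁) (1 / 2) (1 / 1000) (1 / 2) : ℕ) : ℝ) ≤ s := by
    exact_mod_cast h2.trans h4
  have h6 : (2 : ℝ) * (1 / 2) = 1 := by norm_num
  rw [h6, div_one] at h1
  linarith

end Pool.Agent.S15186
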