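import Pool.Statements.S15411
import Pool.Agent.H54OG.Gen

set_option autoImplicit false
open Pool Pool.MP_d483bb_lc

namespace Pool.Agent.S15411

open Pool.Agent.H54OG

/-- infinite rank gives independent elements -/
theorem indep_of_rank {H : Type} [AddCommGroup H] (hrank : Cardinal.aleph0 ≤ Module.rank ℤ H)
    [Primcodable H] (l : ℕ) (h : ℕ → H) : ∃ w, ¬ Dep h w l := by
  classical
  by_contra hc
  push Not at hc
  have h1 : ∀ w : H, ∃ (m : ℤ) (b : ℕ → ℤ), m ≠ 0 ∧ m • w = ∑ i ∈ Finset.range l, b i • h i :=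
    fun w => dep_iff.1 (hc w)
  choose m b hm hb using h1
  obtain ⟨S, hS, hli⟩ := exists_finset_linearIndependent_of_le_rank (R := ℤ) (M := H) (n := l + 1)
    (le_trans (Cardinal.natCast_lt_aleph0).le hrank)
  have hli' : LinearIndependent ℤ (fun x : S => (x : H)) := hli
  rw [Fintype.linearIndependent_iff] at hli'
  have h2 : LinearIndependent ℤ (fun (x : S) (i : Fin l) => b x i) := by
    rw [Fintype.linearIndependent_iff]
    intro c hc0 x
    have h3 : ∑ x : S, (c x * m x) • (x : H) = 0 := by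
      have h4 : ∀ x : S, (c x * m x) • (x : H) = ∑ i ∈ Finset.range l, (c x * b x i) • h i := by
        intro x
        rw [mul_smul, hb, Finset.smul_sum]
        exact Finset.sum_congr rfl fun i _ => by rw [mul_smul]
      rw [Finset.sum_congr rfl fun x _ => h4 x, Finset.sum_comm]
      refine Finset.sum_eq_zero fun i hi => ?_
      rw [← Finset.sum_smul]
      have h5 := congrFun hc0 ⟨i, Finset.mem_range.1 hi⟩
      rw [Finset.sum_apply] at h5
      simp only [Pi.smul_apply, smul_eq_mul, Pi.zero_apply] at h5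
      rw [h5, zero_smul]
    have h6 := hli' (fun x => c x * m x) h3 x
    exact (mul_eq_zero.1 h6).resolve_right (hm x)
  have h7 := h2.fintype_card_le_finrank
  rw [Fintype.card_coe, hS, Module.finrank_fin_fun] at h7
  omega

/-- Every computable torsion-free abelian group of infinite rank has a computable copy with a computable order, and with an order below some degree X such that no order on that copy has exactly the Turing degree of X. -/
theorem result :
    ∀ (H : Type) [AddCommGroup H],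
      (∀ (n : ℕ) (x : H), n ≠ 0 → n • x = 0 → x = 0) →
      Cardinal.aleph0 ≤ Module.rank ℤ H →
      (∃ ν : ℕ ≃ H, Computable₂ (fun a b : ℕ => ν.symm (ν a + ν b))) →
      ∃ μ : ℕ ≃ H, Computable₂ (fun a b : ℕ => μ.symm (μ a + μ b)) ∧
        (∃ P : Set H,
          (∀ a ∈ P, ∀ b ∈ P, a + b ∈ P) ∧ (∀ a : H, a ∈ P → -a ∈ P → a = 0) ∧
            (∀ a : H, a ∈ P ∨ -a ∈ P) ∧
            Computable (Set.indicator (μ ⁻¹' P) (fun _ => (1 : ℕ)) : ℕ → ℕ)) ∧
        ∃ P : Set H,
          (∀ a ∈ P, ∀ b ∈ P, a + b ∈ P) ∧ (∀ a : H, a ∈ P → -a ∈ P → a = 0) ∧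
            (∀ a : H, a ∈ P ∨ -a ∈ P) ∧
            ∃ X : ℕ → ℕ,
              TuringReducible
                ((Set.indicator (μ ⁻¹' P) (fun _ => (1 : ℕ)) : ℕ → ℕ) : ℕ →. ℕ)
                ((X : ℕ → ℕ) : ℕ →. ℕ) ∧
              ∀ Q : Set H,
                (∀ a ∈ Q, ∀ b ∈ Q, a + b ∈ Q) →
                (∀ a : H, a ∈ Q → -a ∈ Q → a = 0) →
                (∀ a : H, a ∈ Q ∨ -a ∈ Q) →
                ¬ (TuringReducible
                      ((Set.indicator (μ ⁻¹' Q) (fun _ => (1 : ℕ)) : ℕ → ℕ) : ℕ →. ℕ)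
                      ((X : ℕ → ℕ) : ℕ →. ℕ) ∧
                    TuringReducible ((X : ℕ → ℕ) : ℕ →. ℕ)
                      ((Set.indicator (μ ⁻¹' Q) (fun _ => (1 : ℕ)) : ℕ → ℕ) : ℕ →. ℕ)) := by
  intro H _ htor hrank hν
  obtain ⟨ν, hν⟩ := hν
  let _ : Denumerable H := Denumerable.mk' ν.symm
  let _ : Primcodable H := Primcodable.ofDenumerable H
  have htf : TF H := by
    intro n x hn hx
    refine htor n.natAbs x (Int.natAbs_ne_zero.2 hn) ?_
    rw [← natCast_zsmul]
    rcases Int.natAbs_eq n with h | h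
    · rw [← h]
      exact hx
    · have h1 : ((n.natAbs : ℕ) : ℤ) = -n := by omega
      rw [h1, neg_smul, hx, neg_zero]
  have hadd : Computable₂ fun a b : H => a + b := by
    have h1 : Computable fun n : ℕ => ν n := (Primrec.ofNat H).to_comp
    have h2 : Computable fun x : H => ν.symm x := Computable.encode
    have h3 : Computable fun x : H × H => ν (ν.symm (ν (ν.symm x.1) + ν (ν.symm x.2))) :=
      h1.comp (hν.comp (h2.comp Computable.fst) (h2.comp Computable.snd))
    refine h3.of_eq fun x => ?_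
    simp
  obtain ⟨s, hs, hV, hS, hD⟩ := exists_run htf (indep_of_rank hrank) hadd
  obtain ⟨θ, L⟩ := Run.exists_lim (s := s) ⟨hV, hS, hD⟩ htf (indep_of_rank hrank)
  let μ : ℕ ≃ H := Equiv.ofBijective θ ⟨L.inj, L.surj⟩
  have hμ : ∀ i, μ i = θ i := fun i => rfl
  have hcomp : Computable (Set.indicator (μ ⁻¹' PP s θ) (fun _ => (1 : ℕ)) : ℕ → ℕ) :=
    L.comp_pos hs fun i => L.mem_PP
  obtain ⟨X, hX, hXQ⟩ := L.exists_X hs
  refine ⟨μ, L.comp_add hs μ hμ, ⟨PP s θ, L.ord_PP.add, L.ord_PP.anti, L.ord_PP.tot, hcomp⟩,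
    PP s θ, L.ord_PP.add, L.ord_PP.anti, L.ord_PP.tot, fun n => (X n).toNat, ?_, ?_⟩
  · exact Partrec.turingReducible hcomp
  · rintro Q q1 q2 q3 ⟨h1, h2⟩
    have h3 : Computable (Set.indicator (μ ⁻¹' Q) (fun _ => (1 : ℕ)) : ℕ → ℕ) :=
      hXQ Q ⟨q1, q2, q3⟩ h1
    have h4 : TuringReducible ((fun n => (X n).toNat : ℕ → ℕ) : ℕ →. ℕ) (fun _ => .none) :=
      TuringReducible.trans h2 (Partrec.turingReducible h3)
    have h5 : Computable (fun n => (X n).toNat : ℕ → ℕ) := h4.partrec_of_const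
    apply hX
    have h6 : Primrec fun n : ℕ => decide (n = 1) :=
      (Primrec.eq.comp Primrec.id (Primrec.const 1)).decide
    refine (h6.to_comp.comp h5).of_eq fun n => ?_
    cases X n <;> rfl

end Pool.Agent.S15411
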