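import Pool.Statements.S17877
import Pool.Agent.H5S_Weird.Final

set_option autoImplicit false
open Pool Pool.MP_9b74c8_nt

namespace Pool.Agent.S17877

/-- There is a real constant C such that every weird number m (abundant, with no subset of its proper divisors summing to m) has sum of divisors divided by m at most C. -/
theorem result :
    ∃ C : ℝ, ∀ m : ℕ, 0 < m →
      m < ∑ i ∈ m.properDivisors, i →
      (¬ ∃ s ⊆ m.properDivisors, ∑ i ∈ s, i = m) →
      ((∑ i ∈ m.divisors, i : ℕ) : ℝ) / (m : ℝ) ≤ C := by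
  refine ⟨Real.exp (2 * (2 ^ 100 + 8)), ?_⟩
  intro m hm _ hw
  have h1 := Pool.Agent.H5SWeird.recip_bound m hm hw
  have h2 := Pool.Agent.H5SWeird.sigma_bound m
  have hmR : (0 : ℝ) < m := by exact_mod_cast hm
  rw [div_le_iff₀ hmR]
  have h3 : Real.exp (2 * ∑ p ∈ m.primeFactors, (1 / p : ℝ)) ≤ Real.exp (2 * (2 ^ 100 + 8)) := by
    apply Real.exp_le_exp.2
    linarith
  calc ((∑ i ∈ m.divisors, i : ℕ) : ℝ) = (Pool.Agent.H5SWeird.sg m : ℝ) := rfl
    _ ≤ m * Real.exp (2 * ∑ p ∈ m.primeFactors, (1 / p : ℝ)) := h2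
    _ ≤ m * Real.exp (2 * (2 ^ 100 + 8)) := mul_le_mul_of_nonneg_left h3 hmR.le
    _ = Real.exp (2 * (2 ^ 100 + 8)) * m := mul_comm _ _

end Pool.Agent.S17877
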